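import Mathlib

set_option autoImplicit false

namespace Pool.Agent.H33.Sol

open Subgroup

section

variable {G : Type*} [Group G]

lemma solv_of_le {H K : Subgroup G} (h : H ≤ K) (hK : Group.IsSolvable K) : Group.IsSolvable H :=
  Group.isSolvable_of_isSolvable_injective (Subgroup.inclusion_injective h)

lemma solv_closure_of_mem {K : Subgroup G} (hK : Group.IsSolvable K) {a b : G} (ha : a ∈ K)
    (hb : b ∈ K) : Group.IsSolvable (closure {a, b} : Subgroup G) := by
  apply solv_of_le _ hK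
  rw [closure_le]
  rintro x (rfl | rfl)
  · exact ha
  · exact hb

lemma solv_closure_comm {a b : G} (h : Commute a b) :
    Group.IsSolvable (closure {a, b} : Subgroup G) := by
  apply Group.isSolvable_of_comm
  have h1 : ∀ x ∈ ({a, b} : Set G), ∀ y ∈ ({a, b} : Set G), x * y = y * x := by
    rintro x (rfl | rfl) y (rfl | rfl)
    · rfl
    · exact h.eq
    · exact h.eq.symm
    · rfl
  intro x y
  apply Subtype.ext
  exact (Subgroup.closureCommGroupOfComm h1).mul_comm x y |> congrArg Subtype.val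

lemma solv_conj {a b g : G} (h : Group.IsSolvable (closure {g * a * g⁻¹, g * b * g⁻¹} : Subgroup G)) :
    Group.IsSolvable (closure {a, b} : Subgroup G) := by
  have h1 : (closure {a, b} : Subgroup G).map (MulAut.conj g).toMonoidHom =
      closure {g * a * g⁻¹, g * b * g⁻¹} := by
    rw [MonoidHom.map_closure, Set.image_pair]
    rfl
  have h2 : Group.IsSolvable ((closure {a, b} : Subgroup G).map (MulAut.conj g).toMonoidHom) := by
    rw [h1]; exact h
  exact Group.isSolvable_of_isSolvable_injective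
    (f := ((MulAut.conj g).toMonoidHom.subgroupMap (closure {a, b})))
    (by
      intro x y hxy
      apply Subtype.ext
      have := congrArg Subtype.val hxy
      exact (MulAut.conj g).injective this)

/-- the special elements of order 5 -/
def Spec (W F : G) : Set G := {d | (∃ c < 205, d = W ^ c * F) ∨ d = W ^ 41}

structure Data (W F g : G) : Prop where
  W205 : W ^ 205 = 1
  F5 : F ^ 5 = 1
  FW : F * W * F⁻¹ = W ^ 16
  norm : ∀ z : G, Group.IsSolvable (closure {W ^ 25, z} : Subgroup G) → ∃ a j : ℕ, z = W ^ a * F ^ j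
  nsol : ∀ d ∈ Spec W F, ∀ d' ∈ Spec W F,
    ¬ Group.IsSolvable (closure {d, g * d' * g⁻¹} : Subgroup G)

lemma num205 : ∀ a < 205, a = 0 ∨ (∃ m < 205, a * m % 205 = 41) ∨
    ((∃ m < 205, a * m % 205 = 25) ∧ ∃ s < 41, 25 * s % 205 = a) := by
  decide +kernel

variable {W F g : G}

lemma FWj (h : Data W F g) (a j : ℕ) : ∃ b : ℕ, F ^ j * W ^ a = W ^ b * F ^ j := by
  induction j with
  | zero => exact ⟨a, by simp⟩
  | succ j ih =>
    obtain ⟨b, hb⟩ := ih
    refine ⟨16 * b, ?_⟩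
    have h1 : F * W ^ b = W ^ (16 * b) * F := by
      have h2 : F * W ^ b * F⁻¹ = (F * W * F⁻¹) ^ b := by rw [conj_pow]
      rw [h.FW, ← pow_mul] at h2
      exact mul_inv_eq_iff_eq_mul.1 h2
    rw [pow_succ', mul_assoc, hb, ← mul_assoc, h1, mul_assoc]

lemma WFpow (h : Data W F g) (a j m : ℕ) : ∃ c : ℕ, (W ^ a * F ^ j) ^ m = W ^ c * F ^ (j * m) := by
  induction m with
  | zero => exact ⟨0, by simp⟩
  | succ m ih =>
    obtain ⟨c, hc⟩ := ih
    obtain ⟨b, hb⟩ := FWj h a (j * m)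
    refine ⟨c + b, ?_⟩
    rw [pow_succ, hc, mul_assoc, ← mul_assoc (F ^ (j * m)), hb, mul_add, mul_one, pow_add, pow_add,
      ← mul_assoc, ← mul_assoc, ← mul_assoc]

lemma W_mod (h : Data W F g) (a : ℕ) : W ^ a = W ^ (a % 205) := by
  conv_lhs => rw [← Nat.mod_add_div a 205]
  rw [pow_add, pow_mul, h.W205, one_pow, mul_one]

lemma F_mod (h : Data W F g) (a : ℕ) : F ^ a = F ^ (a % 5) := by
  conv_lhs => rw [← Nat.mod_add_div a 5]
  rw [pow_add, pow_mul, h.F5, one_pow, mul_one]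

/-- classification of the nontrivial elements of the normaliser -/
lemma classify (h : Data W F g) {z : G} (hz : z ≠ 1) (hN : ∃ a j : ℕ, z = W ^ a * F ^ j) :
    (∃ m : ℕ, z ^ m ∈ Spec W F) ∨ (W ^ 25 ∈ zpowers z ∧ z ∈ zpowers (W ^ 25)) := by
  obtain ⟨a, j, rfl⟩ := hN
  rw [F_mod h j] at hz ⊢
  have hj : j % 5 < 5 := Nat.mod_lt _ (by norm_num)
  have key : ∀ i m : ℕ, i * m % 5 = 1 → (W ^ a * F ^ i) ^ m ∈ Spec W F := by
    intro i m him
    obtain ⟨c, hc⟩ := WFpow h a i m
    left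
    refine ⟨c % 205, Nat.mod_lt _ (by norm_num), ?_⟩
    rw [hc, ← W_mod h c, F_mod h (i * m), him, pow_one]
  rcases Nat.eq_zero_or_pos (j % 5) with h0 | h0
  · rw [h0, pow_zero, mul_one] at hz ⊢
    rw [W_mod h a] at hz ⊢
    have ha : a % 205 < 205 := Nat.mod_lt _ (by norm_num)
    rcases num205 (a % 205) ha with h1 | ⟨m, _, h1⟩ | ⟨⟨m, _, h1⟩, ⟨s, _, h2⟩⟩
    · rw [h1, pow_zero] at hz; exact absurd rfl hz
    · left
      refine ⟨m, Or.inr ?_⟩
      rw [← pow_mul, W_mod h, h1]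
    · right
      refine ⟨⟨m, ?_⟩, ⟨s, ?_⟩⟩
      · show (W ^ (a % 205)) ^ ((m : ℕ) : ℤ) = W ^ 25
        rw [zpow_natCast, ← pow_mul, W_mod h, h1]
      · show (W ^ 25) ^ ((s : ℕ) : ℤ) = W ^ (a % 205)
        rw [zpow_natCast, ← pow_mul, W_mod h, h2]
  · left
    generalize j % 5 = i at hj h0
    interval_cases i
    · exact ⟨1, key 1 1 rfl⟩
    · exact ⟨3, key 2 3 rfl⟩
    · exact ⟨2, key 3 2 rfl⟩
    · exact ⟨4, key 4 4 rfl⟩

lemma W41_comm (h : Data W F g) {z : G} (hN : ∃ a j : ℕ, z = W ^ a * F ^ j) :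
    Commute (W ^ 41) z := by
  obtain ⟨a, j, rfl⟩ := hN
  apply Commute.mul_right
  · exact (Commute.refl W).pow_pow 41 a
  · apply Commute.pow_right
    have h2 : F * W ^ 41 * F⁻¹ = (F * W * F⁻¹) ^ 41 := by rw [conj_pow]
    rw [h.FW, ← pow_mul, W_mod h (16 * 41)] at h2
    norm_num at h2
    exact (mul_inv_eq_iff_eq_mul.1 h2).symm

lemma norm' (h : Data W F g) {z : G}
    (hz : Group.IsSolvable (closure {z, g * W ^ 25 * g⁻¹} : Subgroup G)) :
    ∃ z' : G, z = g * z' * g⁻¹ ∧ ∃ a j : ℕ, z' = W ^ a * F ^ j := by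
  refine ⟨g⁻¹ * z * g, by group, ?_⟩
  apply h.norm
  apply solv_conj (g := g)
  have h1 : g * (g⁻¹ * z * g) * g⁻¹ = z := by group
  rw [h1, Set.pair_comm]
  exact hz

lemma conj_zpowers {a b : G} (h : a ∈ zpowers b) : g * a * g⁻¹ ∈ zpowers (g * b * g⁻¹) := by
  obtain ⟨k, rfl⟩ := h
  refine ⟨k, ?_⟩
  show (g * b * g⁻¹) ^ k = g * (b ^ k) * g⁻¹
  rw [conj_zpow]

lemma comm_of_zpowers {a b c : G} (h : a ∈ zpowers b) (hc : Commute b c) : Commute a c := by
  obtain ⟨k, rfl⟩ := h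
  exact hc.zpow_left k

lemma W41_spec : W ^ 41 ∈ Spec W F := Or.inr rfl

lemma comm_W25 (g : G) : Commute (g * W ^ 25 * g⁻¹) (g * W ^ 41 * g⁻¹) := by
  show g * W ^ 25 * g⁻¹ * (g * W ^ 41 * g⁻¹) = g * W ^ 41 * g⁻¹ * (g * W ^ 25 * g⁻¹)
  have h1 : g * W ^ 25 * g⁻¹ * (g * W ^ 41 * g⁻¹) = g * (W ^ 25 * W ^ 41) * g⁻¹ := by group
  have h2 : g * W ^ 41 * g⁻¹ * (g * W ^ 25 * g⁻¹) = g * (W ^ 41 * W ^ 25) * g⁻¹ := by group
  rw [h1, h2, ← pow_add, ← pow_add]

/-- no nontrivial element lies in both normalisers -/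
lemma inter_trivial (h : Data W F g) {v : G} (hv : v ≠ 1) (h1 : ∃ a j : ℕ, v = W ^ a * F ^ j)
    (h2 : ∃ v' : G, v = g * v' * g⁻¹ ∧ ∃ a j : ℕ, v' = W ^ a * F ^ j) : False := by
  obtain ⟨v', hvv', h2⟩ := h2
  have hv' : v' ≠ 1 := by
    rintro rfl
    apply hv
    rw [hvv']; group
  have hpow : ∀ m : ℕ, v ^ m = g * v' ^ m * g⁻¹ := by
    intro m
    rw [hvv', conj_pow]
  rcases classify h hv h1 with ⟨m, hm⟩ | ⟨hb1, hb2⟩
  · rcases classify h hv' h2 with ⟨l, hl⟩ | ⟨hb1', hb2'⟩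
    · apply h.nsol _ hm _ hl
      rw [← hpow]
      exact solv_closure_comm ((Commute.refl v).pow_pow m l)
    · apply h.nsol _ hm _ W41_spec
      apply solv_closure_comm
      apply Commute.pow_left
      have h3 : v ∈ zpowers (g * W ^ 25 * g⁻¹) := by rw [hvv']; exact conj_zpowers hb2'
      exact comm_of_zpowers h3 (comm_W25 g)
  · rcases classify h hv' h2 with ⟨l, hl⟩ | ⟨hb1', hb2'⟩
    · apply h.nsol _ W41_spec _ hl
      apply solv_closure_comm
      rw [← hpow]
      apply Commute.pow_right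
      exact W41_comm h h1
    · apply h.nsol _ W41_spec _ W41_spec
      apply solv_closure_comm
      apply W41_comm h
      apply h.norm
      apply solv_closure_comm
      have h3 : v ∈ zpowers (g * W ^ 25 * g⁻¹) := by rw [hvv']; exact conj_zpowers hb2'
      have h4 : W ^ 25 ∈ zpowers (g * W ^ 25 * g⁻¹) := by
        have h5 : zpowers v ≤ zpowers (g * W ^ 25 * g⁻¹) := by
          rw [Subgroup.zpowers_le]; exact h3
        exact h5 hb1
      exact comm_of_zpowers h4 (comm_W25 g)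

/-- there is no path of length at most three -/
theorem no_path (h : Data W F g) {z w : G} (hz : z ≠ 1) (hw : w ≠ 1)
    (h1 : Group.IsSolvable (closure {W ^ 25, z} : Subgroup G))
    (h2 : Group.IsSolvable (closure {z, w} : Subgroup G))
    (h3 : Group.IsSolvable (closure {w, g * W ^ 25 * g⁻¹} : Subgroup G)) : False := by
  have hzN := h.norm z h1
  have hwN := norm' h h3
  obtain ⟨w', hww', hw'N⟩ := id hwN
  have hw' : w' ≠ 1 := by
    rintro rfl
    apply hw
    rw [hww']; group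
  have hzmem : z ∈ closure {z, w} := subset_closure (by simp)
  have hwmem : w ∈ closure {z, w} := subset_closure (by simp)
  rcases classify h hz hzN with ⟨m, hm⟩ | ⟨hb1, _⟩
  · rcases classify h hw' hw'N with ⟨l, hl⟩ | ⟨hb1', _⟩
    · apply h.nsol _ hm _ hl
      apply solv_closure_of_mem h2 (pow_mem hzmem m)
      have h4 : g * w' ^ l * g⁻¹ = w ^ l := by rw [hww', conj_pow]
      rw [h4]
      exact pow_mem hwmem l
    · -- w has order 41
      have h4 : g * W ^ 25 * g⁻¹ ∈ zpowers w := by rw [hww']; exact conj_zpowers hb1'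
      have h5 : Group.IsSolvable (closure {z, g * W ^ 25 * g⁻¹} : Subgroup G) := by
        apply solv_closure_of_mem h2 hzmem
        have h6 : zpowers w ≤ closure {z, w} := by rw [Subgroup.zpowers_le]; exact hwmem
        exact h6 h4
      exact inter_trivial h hz hzN (norm' h h5)
  · have h5 : Group.IsSolvable (closure {W ^ 25, w} : Subgroup G) := by
      apply solv_closure_of_mem h2 _ hwmem
      have h6 : zpowers z ≤ closure {z, w} := by rw [Subgroup.zpowers_le]; exact hzmem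
      exact h6 hb1
    exact inter_trivial h hw (h.norm w h5) hwN

end

end Pool.Agent.H33.Sol
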