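import Mathlib

set_option autoImplicit false

namespace Pool.Agent.H33.Sol

open Subgroup
open scoped Pointwise

/-- If `x` of prime order `r` normalises a subgroup `N` of order prime to `r`, and centralises
every `p`-subgroup of `N` that it normalises, then it centralises `N`. -/
theorem commute_of_local {K : Type*} [Group K] [Finite K] {r : ℕ} [hr : Fact r.Prime] {x : K}
    (hx : x ^ r = 1) (N : Subgroup K) [hN : N.Normal] (hrN : ¬ r ∣ Nat.card N)
    (hloc : ∀ p : ℕ, p.Prime → ∀ P : Subgroup K, P ≤ N → IsPGroup p P →
      (∀ g ∈ P, x * g * x⁻¹ ∈ P) → ∀ g ∈ P, Commute x g) :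
    ∀ n ∈ N, Commute x n := by
  classical
  set C : Subgroup K := N ⊓ Subgroup.centralizer {x} with hC
  -- the order of N divides the order of C
  have key : ∀ p : ℕ, p.Prime → ∀ k : ℕ, p ^ k ∣ Nat.card N → p ^ k ∣ Nat.card C := by
    intro p hp k hk
    have : Fact p.Prime := ⟨hp⟩
    -- the automorphism of N given by x
    let α : MulAut N := MulAut.conjNormal x
    have hα : α ^ r = 1 := by
      rw [← map_pow, hx, map_one]
    -- action on Sylow subgroups
    let f : Function.End (Sylow p N) := fun P => α • P
    have hf : f ^ r ^ 1 = 1 := by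
      rw [pow_one]
      have hpow : ∀ m : ℕ, ∀ P : Sylow p N, (f ^ m) P = (α ^ m) • P := by
        intro m
        induction m with
        | zero => intro P; rw [pow_zero, pow_zero, one_smul]; rfl
        | succ m ih =>
          intro P
          rw [pow_succ', pow_succ']
          show f ((f ^ m) P) = (α * α ^ m) • P
          rw [ih P, mul_smul]
      funext P
      rw [hpow r P, hα, one_smul]
      rfl
    have : Fintype (Sylow p N) := Fintype.ofFinite _
    have hcard := Equiv.Perm.card_fixedPoints_modEq (α := Sylow p N) (f := f) (p := r) (n := 1) hf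
    have hnotdvd : ¬ r ∣ Fintype.card (Sylow p N) := by
      intro h
      apply hrN
      have h1 : Nat.card (Sylow p N) ∣ (default : Sylow p N).index := Sylow.card_dvd_index _
      rw [Fintype.card_eq_nat_card] at h
      exact (h.trans h1).trans (Subgroup.index_dvd_card _)
    have hne : Fintype.card f.fixedPoints ≠ 0 := by
      intro h0
      rw [h0] at hcard
      exact hnotdvd ((Nat.modEq_zero_iff_dvd).1 hcard)
    obtain ⟨⟨P, hP⟩⟩ : Nonempty f.fixedPoints := by
      rw [← Fintype.card_pos_iff]
      exact Nat.pos_of_ne_zero hne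
    have hP' : α • P = P := hP
    -- transport P to K
    set Q : Subgroup K := (P : Subgroup N).map N.subtype with hQ
    have hQN : Q ≤ N := by
      rintro _ ⟨g, _, rfl⟩
      exact g.2
    have hQp : IsPGroup p Q := P.2.map _
    have hQx : ∀ g ∈ Q, x * g * x⁻¹ ∈ Q := by
      rintro _ ⟨g, hg, rfl⟩
      refine ⟨α g, ?_, ?_⟩
      · have h1 : α • g ∈ α • (P : Subgroup N) := Subgroup.smul_mem_pointwise_smul g α _ hg
        have h2 : α • (P : Subgroup N) = (P : Subgroup N) := by
          rw [← Sylow.pointwise_smul_def, hP']
        rw [h2] at h1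
        exact h1
      · exact MulAut.conjNormal_apply x g
    have hcom := hloc p hp Q hQN hQp hQx
    have hQC : Q ≤ C := by
      intro g hg
      rw [hC, Subgroup.mem_inf]
      refine ⟨hQN hg, ?_⟩
      rw [Subgroup.mem_centralizer_singleton_iff]
      exact (hcom g hg).symm.eq
    have hQcard : Nat.card Q = p ^ (Nat.card N).factorization p := by
      rw [hQ, Subgroup.card_map_of_injective (Subgroup.subtype_injective N)]
      exact P.card_eq_multiplicity
    have h3 : p ^ k ∣ Nat.card Q := by
      rw [hQcard]
      apply Nat.pow_dvd_pow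
      exact (hp.pow_dvd_iff_le_factorization Nat.card_pos.ne').1 hk
    exact h3.trans (Subgroup.card_dvd_of_le hQC)
  have hdvd : Nat.card N ∣ Nat.card C := by
    rw [Nat.dvd_iff_prime_pow_dvd_dvd]
    intro p k hp hk
    exact key p hp k hk
  have hCN : C ≤ N := inf_le_left
  have hEq : C = N := by
    apply Subgroup.eq_of_le_of_card_ge hCN
    exact Nat.le_of_dvd Nat.card_pos hdvd
  intro n hn
  rw [← hEq, hC, Subgroup.mem_inf] at hn
  have h4 := hn.2
  rw [Subgroup.mem_centralizer_singleton_iff] at h4
  exact h4.symm

end Pool.Agent.H33.Sol
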