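import Mathlib

set_option autoImplicit false

namespace Pool.Agent.H33.Sol

/-- The field with 16 elements, `F_2[t]/(t^4+t+1)`; elements are bit vectors of length 4. -/
def F16 : Type := Fin 16

namespace F16

instance : DecidableEq F16 := inferInstanceAs (DecidableEq (Fin 16))
instance : Fintype F16 := inferInstanceAs (Fintype (Fin 16))

/-- multiplication table, packed: nibble number `16 a + b` is `a * b` -/
def mulTable : ℕ := 116196760129267793630862849262464326346044543732748708940920453221664288556434379745879494961270582141731748813355742142288220638766218855867759359510984593843506004200114943278699875244065120512813025380665946106619127097398772031257643617143689515450995722003729973585221105779229319991106539050771048038400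

/-- table of inverses, packed -/
def invTable : ℕ := 9460475325918865680

/-- multiplication of nibbles -/
def mulN (a b : ℕ) : ℕ := mulTable / 2 ^ (4 * (16 * a + b)) % 16

/-- element with given nibble -/
def ofNat (n : ℕ) : F16 := (⟨n % 16, Nat.mod_lt _ (by norm_num)⟩ : Fin 16)

/-- nibble of an element -/
def toNat (a : F16) : ℕ := Fin.val a

instance : Zero F16 := ⟨ofNat 0⟩
instance : One F16 := ⟨ofNat 1⟩
instance : Add F16 := ⟨fun a b => ofNat (Nat.xor a.toNat b.toNat)⟩
instance : Neg F16 := ⟨fun a => a⟩
instance : Mul F16 := ⟨fun a b => ofNat (mulN a.toNat b.toNat)⟩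
instance : Inv F16 := ⟨fun a => ofNat (invTable / 2 ^ (4 * a.toNat) % 16)⟩

instance : Field F16 where
  add_assoc := by decide +kernel
  zero_add := by decide +kernel
  add_zero := by decide +kernel
  add_comm := by decide +kernel
  neg_add_cancel := by decide +kernel
  mul_assoc := by decide +kernel
  one_mul := by decide +kernel
  mul_one := by decide +kernel
  mul_comm := by decide +kernel
  left_distrib := by decide +kernel
  right_distrib := by decide +kernel
  zero_mul := by decide +kernel
  mul_zero := by decide +kernel
  exists_pair_ne := ⟨0, 1, by decide +kernel⟩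
  mul_inv_cancel := by decide +kernel
  inv_zero := by decide +kernel
  nsmul := nsmulRec
  zsmul := zsmulRec
  nnqsmul := _
  nnqsmul_def := fun _ _ => rfl
  qsmul := _
  qsmul_def := fun _ _ => rfl

instance : StarRing F16 where
  star a := a ^ 4
  star_involutive := by
    intro a
    show (a ^ 4) ^ 4 = a
    revert a
    decide +kernel
  star_mul := by
    intro a b
    show (a * b) ^ 4 = b ^ 4 * a ^ 4
    rw [mul_pow, mul_comm]
  star_add := by
    show ∀ a b : F16, (a + b) ^ 4 = a ^ 4 + b ^ 4
    decide +kernel

lemma star_def (a : F16) : star a = a ^ 4 := rfl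

lemma card : Fintype.card F16 = 16 := rfl

lemma two_eq_zero : (2 : F16) = 0 := by
  rw [← one_add_one_eq_two]
  decide +kernel

instance : CharP F16 2 := CharTwo.of_one_ne_zero_of_two_eq_zero (by decide +kernel) two_eq_zero

end F16

end Pool.Agent.H33.Sol
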