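import Mathlib

set_option autoImplicit false

namespace Pool.Agent.H33.Sol

open Subgroup

/-- In a finite commutative group whose order is not divisible by `r ^ 2`, two elements of order
dividing the prime `r`, the first one nontrivial, satisfy `b ∈ zpowers a`. -/
lemma mem_zpowers_of_comm {A : Type*} [CommGroup A] [Finite A] {r : ℕ} [hr : Fact r.Prime]
    (hr2 : ¬ r ^ 2 ∣ Nat.card A) {a b : A} (ha : orderOf a = r) (hb : b ^ r = 1) :
    b ∈ zpowers a := by
  have h1 : Nat.card (zpowers a) * Nat.card (A ⧸ zpowers a) = Nat.card A := by
    rw [mul_comm]; exact (Subgroup.card_eq_card_quotient_mul_card_subgroup (zpowers a)).symm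
  rw [Nat.card_zpowers, ha] at h1
  have h2 : ¬ r ∣ Nat.card (A ⧸ zpowers a) := by
    intro h
    apply hr2
    rw [← h1, sq]
    exact Nat.mul_dvd_mul_left r h
  have h3 : orderOf (QuotientGroup.mk b : A ⧸ zpowers a) ∣ r := by
    apply orderOf_dvd_of_pow_eq_one
    rw [← QuotientGroup.mk_pow, hb, QuotientGroup.mk_one]
  have h4 : orderOf (QuotientGroup.mk b : A ⧸ zpowers a) ∣ Nat.card (A ⧸ zpowers a) :=
    orderOf_dvd_natCard _
  have h5 : orderOf (QuotientGroup.mk b : A ⧸ zpowers a) = 1 := by
    rcases (Nat.dvd_prime hr.out).1 h3 with h | h
    · exact h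
    · rw [h] at h4; exact absurd h4 h2
  rw [orderOf_eq_one_iff] at h5
  exact (QuotientGroup.eq_one_iff b).1 h5

/-- Main induction: a solvable normal subgroup `A` containing `x`. -/
lemma zpowers_normal_aux {K : Type*} [Group K] [Finite K] {r : ℕ} [hr : Fact r.Prime] {x : K}
    (hx : orderOf x = r) (hr2 : ¬ r ^ 2 ∣ Nat.card K)
    (hcent : ∀ N : Subgroup K, N.Normal → ¬ r ∣ Nat.card N → ∀ n ∈ N, Commute x n) (m : ℕ) :
    ∀ A : Subgroup K, A.Normal → Group.IsSolvable A → x ∈ A → Nat.card A ≤ m →
      ∀ h : K, h * x * h⁻¹ ∈ zpowers x := by
  have hrdvd : ∀ A : Subgroup K, Nat.card A ∣ Nat.card K := fun A => Subgroup.card_subgroup_dvd_card A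
  induction m with
  | zero =>
    intro A _ _ _ hA
    exfalso
    have : 0 < Nat.card A := Nat.card_pos
    omega
  | succ m ih =>
    intro A hA hsol hxA hcard h
    have := hA
    -- the derived subgroup of A
    set N : Subgroup K := ⁅A, A⁆ with hN
    have hNnorm : N.Normal := Subgroup.commutator_normal A A
    have hNle : N ≤ A := Subgroup.commutator_le_right A A
    by_cases hrN : r ∣ Nat.card N
    · -- x lies in N, induct
      have hxN : x ∈ N := by
        by_contra hxN
        apply hr2
        have h1 : Nat.card (K ⧸ N) * Nat.card N = Nat.card K :=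
          (Subgroup.card_eq_card_quotient_mul_card_subgroup N).symm
        have h2 : r ∣ Nat.card (K ⧸ N) := by
          have h3 : orderOf (QuotientGroup.mk x : K ⧸ N) ∣ r := by
            apply orderOf_dvd_of_pow_eq_one
            rw [← QuotientGroup.mk_pow, ← hx, pow_orderOf_eq_one, QuotientGroup.mk_one]
          rcases (Nat.dvd_prime hr.out).1 h3 with h4 | h4
          · exfalso
            rw [orderOf_eq_one_iff] at h4
            exact hxN ((QuotientGroup.eq_one_iff x).1 h4)
          · rw [← h4]; exact orderOf_dvd_natCard _
        rw [← h1, sq]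
        exact Nat.mul_dvd_mul h2 hrN
      have hNsol : Group.IsSolvable N := by
        exact Group.isSolvable_of_isSolvable_injective (Subgroup.inclusion_injective hNle)
      have hlt : Nat.card N < Nat.card A := by
        by_contra hcon
        push Not at hcon
        have hEq : N = A := by
          apply Subgroup.eq_of_le_of_card_ge hNle hcon
        -- then A is perfect and solvable, hence trivial
        have hAbot : Nontrivial A := by
          refine ⟨⟨⟨x, hxA⟩, 1, ?_⟩⟩
          intro hcon2
          have : x = 1 := by simpa using congrArg Subtype.val hcon2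
          rw [this, orderOf_one] at hx
          exact hr.out.one_lt.ne hx
        have h1 : commutator A < ⊤ := Group.IsSolvable.commutator_lt_top_of_nontrivial A
        have h2 : (commutator A).map A.subtype = A := by
          rw [_root_.commutator_def, Subgroup.map_commutator, ← MonoidHom.range_eq_map, Subgroup.range_subtype]
          exact hEq
        have h3 : commutator A = ⊤ := by
          apply Subgroup.map_injective (Subgroup.subtype_injective A)
          rw [h2, ← MonoidHom.range_eq_map, Subgroup.range_subtype]
        exact h1.ne h3
      exact ih N hNnorm hNsol hxN (by omega) h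
    · -- the abelian quotient step
      have hcN := hcent N hNnorm hrN
      set y : K := h * x * h⁻¹ with hy
      have hyA : y ∈ A := hA.conj_mem x hxA h
      have hyr : y ^ r = 1 := by
        rw [hy, conj_pow, ← hx, pow_orderOf_eq_one]; simp
      -- work in the abelianization of A
      let xa : A := ⟨x, hxA⟩
      let ya : A := ⟨y, hyA⟩
      have hmapN : ∀ a : A, a ∈ commutator A ↔ (a : K) ∈ N := by
        intro a
        have h2 : (commutator A).map A.subtype = N := by
          rw [_root_.commutator_def, Subgroup.map_commutator, ← MonoidHom.range_eq_map, Subgroup.range_subtype]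
        rw [← h2]
        constructor
        · intro ha
          exact Subgroup.mem_map_of_mem _ ha
        · rintro ⟨b, hb, hab⟩
          have : b = a := Subtype.ext hab
          rwa [← this]
      have hcardN : Nat.card (commutator A) = Nat.card N := by
        have h2 : (commutator A).map A.subtype = N := by
          rw [_root_.commutator_def, Subgroup.map_commutator, ← MonoidHom.range_eq_map, Subgroup.range_subtype]
        rw [← h2]
        exact (Subgroup.card_map_of_injective (Subgroup.subtype_injective A)).symm
      have hcardAb : Nat.card (Abelianization A) * Nat.card N = Nat.card A := by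
        rw [← hcardN]
        exact (Subgroup.card_eq_card_quotient_mul_card_subgroup (commutator A)).symm
      have hordx : orderOf (Abelianization.of xa) = r := by
        have h3 : orderOf (Abelianization.of xa) ∣ r := by
          apply orderOf_dvd_of_pow_eq_one
          rw [← map_pow]
          have : xa ^ r = 1 := by
            apply Subtype.ext
            show x ^ r = 1
            rw [← hx, pow_orderOf_eq_one]
          rw [this, map_one]
        rcases (Nat.dvd_prime hr.out).1 h3 with h4 | h4
        · exfalso
          rw [orderOf_eq_one_iff] at h4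
          have h5 : xa ∈ commutator A := (QuotientGroup.eq_one_iff xa).1 h4
          have h6 : x ∈ N := (hmapN xa).1 h5
          apply hrN
          have h7 : orderOf (⟨x, h6⟩ : N) = r := by
            rw [← hx]; exact Subgroup.orderOf_mk x h6
          rw [← h7]
          exact orderOf_dvd_natCard _
        · exact h4
      have hyab : (Abelianization.of ya) ^ r = 1 := by
        rw [← map_pow]
        have : ya ^ r = 1 := Subtype.ext hyr
        rw [this, map_one]
      have hr2' : ¬ r ^ 2 ∣ Nat.card (Abelianization A) := by
        intro h8
        apply hr2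
        exact h8.trans ((Dvd.intro _ hcardAb).trans (hrdvd A))
      have hmem := mem_zpowers_of_comm hr2' hordx hyab
      obtain ⟨i, hi⟩ := Subgroup.mem_zpowers_iff.1 hmem
      -- so y = n x^i with n in N
      have hn : y * (x ^ i)⁻¹ ∈ N := by
        have h9 : Abelianization.of (ya * (xa ^ i)⁻¹) = 1 := by
          rw [map_mul, map_inv, map_zpow, hi, mul_inv_cancel]
        have h10 : (ya * (xa ^ i)⁻¹) ∈ commutator A := (QuotientGroup.eq_one_iff _).1 h9
        have h11 := (hmapN _).1 h10
        simpa [xa, ya] using h11
      set n : K := y * (x ^ i)⁻¹ with hndef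
      have hyn : y = n * x ^ i := by rw [hndef]; group
      have hcomm : Commute n x := (hcN n hn).symm
      have hnr : n ^ r = 1 := by
        have h12 : y ^ r = n ^ r * (x ^ i) ^ r := by
          rw [hyn]; exact (hcomm.zpow_right i).mul_pow r
        have h13 : (x ^ i) ^ r = 1 := by
          rw [← zpow_natCast, ← zpow_mul, mul_comm, zpow_mul, zpow_natCast, ← hx, pow_orderOf_eq_one,
            one_zpow]
        rw [h13, mul_one, hyr] at h12
        exact h12.symm
      have hn1 : n = 1 := by
        have h14 : orderOf n ∣ r := orderOf_dvd_of_pow_eq_one hnr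
        rcases (Nat.dvd_prime hr.out).1 h14 with h15 | h15
        · exact orderOf_eq_one_iff.1 h15
        · exfalso
          apply hrN
          rw [← h15, ← Subgroup.orderOf_mk n hn]
          exact orderOf_dvd_natCard _
      rw [hyn, hn1, one_mul]
      exact Subgroup.zpow_mem_zpowers x i

/-- In a finite solvable group `K` in which `r ^ 2` does not divide the order, an element `x` of
order `r` centralising all normal `r'`-subgroups generates a normal subgroup. -/
theorem conj_mem_zpowers_of_solvable {K : Type*} [Group K] [Finite K] [Group.IsSolvable K] {r : ℕ}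
    [hr : Fact r.Prime] {x : K} (hx : orderOf x = r) (hr2 : ¬ r ^ 2 ∣ Nat.card K)
    (hcent : ∀ N : Subgroup K, N.Normal → ¬ r ∣ Nat.card N → ∀ n ∈ N, Commute x n) (h : K) :
    h * x * h⁻¹ ∈ zpowers x := by
  apply zpowers_normal_aux hx hr2 hcent (Nat.card (⊤ : Subgroup K)) ⊤ inferInstance _
    (Subgroup.mem_top x) le_rfl h
  exact Group.isSolvable_of_isSolvable_injective (Subgroup.subtype_injective ⊤)

end Pool.Agent.H33.Sol
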