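import Mathlib
import Pool.Agent.H33.Sol.F16
import Pool.Agent.H33.Sol.GroupGen
import Pool.Agent.H33.Sol.Coprime

set_option autoImplicit false

namespace Pool.Agent.H33.Sol

open Matrix Subgroup

/-- the vector space -/
abbrev V5 : Type := Fin 5 → F16

/-- the general linear group -/
abbrev G5 : Type := GL (Fin 5) F16

instance : Fact (Nat.Prime 41) := ⟨by norm_num⟩

lemma card_G5 : Nat.card G5 = 2^40*3^6*5^6*7*11*13*17^2*31*41*257 := by
  rw [Matrix.card_GL_field, F16.card]
  simp only [Fin.prod_univ_succ, Fin.prod_univ_zero, Fin.val_zero, Fin.val_succ]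
  norm_num

lemma card_sub (W : Submodule F16 V5) : Nat.card W = 16 ^ Module.finrank F16 W := by
  classical
  have : Fintype W := Fintype.ofFinite _
  rw [Nat.card_eq_fintype_card, Module.card_eq_pow_finrank (K := F16), F16.card]

lemma finrank_V5 : Module.finrank F16 V5 = 5 := by simp

lemma pow16_mod {d : ℕ} (hd : d ≤ 5) (h : 16 ^ d ≡ 1 [MOD 41]) : d = 0 ∨ d = 5 := by
  interval_cases d
  · left; rfl
  · exfalso; revert h; decide
  · exfalso; revert h; decide
  · exfalso; revert h; decide
  · exfalso; revert h; decide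
  · right; rfl

/-- the fixed space of a matrix -/
def fixSpace (x : G5) : Submodule F16 V5 where
  carrier := {v | x.1 *ᵥ v = v}
  add_mem' := by
    intro a b ha hb
    simp only [Set.mem_ofPred_eq] at *
    rw [Matrix.mulVec_add, ha, hb]
  zero_mem' := by simp
  smul_mem' := by
    intro c a ha
    simp only [Set.mem_ofPred_eq] at *
    rw [Matrix.mulVec_smul, ha]

lemma fix_congr (x : G5) (hx : x ^ 41 = 1) (W : Submodule F16 V5)
    (hW : ∀ w ∈ W, x.1 *ᵥ w ∈ W) :
    Nat.card W ≡ Nat.card (W ⊓ fixSpace x : Submodule F16 V5) [MOD 41] := by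
  classical
  let f : Function.End W := fun w => ⟨x.1 *ᵥ w.1, hW _ w.2⟩
  have hpow : ∀ m : ℕ, ∀ w : W, ((f ^ m) w).1 = (x ^ m).1 *ᵥ w.1 := by
    intro m
    induction m with
    | zero => intro w; rw [pow_zero, pow_zero, Units.val_one, Matrix.one_mulVec]; rfl
    | succ m ih =>
      intro w
      rw [pow_succ', pow_succ', Units.val_mul, ← Matrix.mulVec_mulVec, ← ih w]
      rfl
  have hf : f ^ 41 ^ 1 = 1 := by
    funext w
    apply Subtype.ext
    rw [pow_one, hpow, hx, Units.val_one, Matrix.one_mulVec]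
    rfl
  have : Fintype W := Fintype.ofFinite _
  have h1 := Equiv.Perm.card_fixedPoints_modEq (α := W) (f := f) (p := 41) (n := 1) hf
  have h2 : Nat.card (W ⊓ fixSpace x : Submodule F16 V5) = Fintype.card f.fixedPoints := by
    rw [← Nat.card_eq_fintype_card]
    apply Nat.card_congr
    refine ⟨fun w => ⟨⟨w.1, w.2.1⟩, ?_⟩, fun w => ⟨w.1.1, w.1.2, ?_⟩, ?_, ?_⟩
    · apply Subtype.ext
      exact w.2.2
    · exact congrArg Subtype.val w.2
    · intro w; rfl
    · intro w; rfl
  rw [h2, Nat.card_eq_fintype_card]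
  exact h1

lemma fixSpace_eq_bot {x : G5} (hx : orderOf x = 41) : fixSpace x = ⊥ := by
  have hx41 : x ^ 41 = 1 := by rw [← hx]; exact pow_orderOf_eq_one x
  have h1 := fix_congr x hx41 ⊤ (fun _ _ => Submodule.mem_top)
  rw [top_inf_eq, card_sub, card_sub, finrank_top, finrank_V5] at h1
  have h2 : 16 ^ Module.finrank F16 (fixSpace x) ≡ 1 [MOD 41] := by
    refine h1.symm.trans ?_
    decide
  have h3 : Module.finrank F16 (fixSpace x) ≤ 5 := (Submodule.finrank_le _).trans finrank_V5.le
  rcases pow16_mod h3 h2 with h | h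
  · exact Submodule.finrank_eq_zero.1 h
  · exfalso
    have h4 : fixSpace x = ⊤ := by
      apply Submodule.eq_top_of_finrank_eq
      rw [h, finrank_V5]
    have h5 : x = 1 := by
      apply Units.ext
      apply Matrix.ext_of_mulVec_single
      intro i
      have : (Pi.single i 1 : V5) ∈ fixSpace x := by rw [h4]; exact Submodule.mem_top
      rw [Units.val_one, Matrix.one_mulVec]
      exact this
    rw [h5, orderOf_one] at hx
    norm_num at hx

/-- An element of order 41 acts irreducibly. -/
lemma invariant_eq {x : G5} (hx : orderOf x = 41) (W : Submodule F16 V5)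
    (hW : ∀ w ∈ W, x.1 *ᵥ w ∈ W) : W = ⊥ ∨ W = ⊤ := by
  have hx41 : x ^ 41 = 1 := by rw [← hx]; exact pow_orderOf_eq_one x
  have h1 := fix_congr x hx41 W hW
  rw [fixSpace_eq_bot hx, inf_bot_eq, card_sub, card_sub, finrank_bot, pow_zero] at h1
  have h3 : Module.finrank F16 W ≤ 5 := (Submodule.finrank_le _).trans finrank_V5.le
  rcases pow16_mod h3 h1 with h | h
  · left; exact Submodule.finrank_eq_zero.1 h
  · right
    apply Submodule.eq_top_of_finrank_eq
    rw [h, finrank_V5]

end Pool.Agent.H33.Sol
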