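import Mathlib
import Pool.Agent.H33.Sol.GL5

set_option autoImplicit false

namespace Pool.Agent.H33.Sol

open Matrix Subgroup

/-- the action of a subgroup of `GL_5(16)` on vectors -/
@[reducible] def vecAction (P : Subgroup G5) : MulAction P V5 where
  smul g v := g.1.1 *ᵥ v
  one_smul v := by
    show (1 : Matrix (Fin 5) (Fin 5) F16) *ᵥ v = v
    exact Matrix.one_mulVec v
  mul_smul g h v := by
    show (g.1.1 * h.1.1) *ᵥ v = g.1.1 *ᵥ (h.1.1 *ᵥ v)
    rw [Matrix.mulVec_mulVec]

lemma conj_inv_mem {x : G5} (hx : x ^ 41 = 1) (P : Subgroup G5)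
    (hP : ∀ g ∈ P, x * g * x⁻¹ ∈ P) : ∀ g ∈ P, x⁻¹ * g * x ∈ P := by
  have hpow : ∀ m : ℕ, ∀ g ∈ P, x ^ m * g * (x ^ m)⁻¹ ∈ P := by
    intro m
    induction m with
    | zero => intro g hg; simpa using hg
    | succ m ih =>
      intro g hg
      have h1 := hP _ (ih g hg)
      have h2 : x ^ (m + 1) * g * (x ^ (m + 1))⁻¹ = x * (x ^ m * g * (x ^ m)⁻¹) * x⁻¹ := by
        rw [pow_succ']; group
      rw [h2]; exact h1
  intro g hg
  have h3 : x ^ 40 = x⁻¹ := by
    rw [eq_inv_iff_mul_eq_one, ← pow_succ, hx]
  have h4 := hpow 40 g hg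
  rw [h3, inv_inv] at h4
  exact h4

/-- A `2`-group normalised by an element of order 41 is trivial. -/
lemma two_group_trivial {x : G5} (hx : orderOf x = 41) (P : Subgroup G5) (hP2 : IsPGroup 2 P)
    (hP : ∀ g ∈ P, x * g * x⁻¹ ∈ P) : ∀ g ∈ P, g = 1 := by
  classical
  have hx41 : x ^ 41 = 1 := by rw [← hx]; exact pow_orderOf_eq_one x
  have hPi := conj_inv_mem hx41 P hP
  let _ := vecAction P
  obtain ⟨b, hb, hb0⟩ := hP2.exists_fixed_point_of_prime_dvd_card_of_fixed_point V5
    (by
      rw [Nat.card_eq_fintype_card, Fintype.card_fun, F16.card, Fintype.card_fin]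
      norm_num)
    (a := (0 : V5)) (by
      intro g
      show g.1.1 *ᵥ (0 : V5) = 0
      exact Matrix.mulVec_zero _)
  let W : Submodule F16 V5 :=
    { carrier := {v | ∀ g ∈ P, g.1 *ᵥ v = v}
      add_mem' := by
        intro a c ha hc g hg
        rw [Matrix.mulVec_add, ha g hg, hc g hg]
      zero_mem' := by
        intro g _
        rw [Matrix.mulVec_zero]
      smul_mem' := by
        intro c a ha g hg
        rw [Matrix.mulVec_smul, ha g hg] }
  have hWinv : ∀ w ∈ W, x.1 *ᵥ w ∈ W := by
    intro w hw g hg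
    have h1 := hw _ (hPi g hg)
    have h2 : (x * (x⁻¹ * g * x)).1 *ᵥ w = x.1 *ᵥ w := by
      rw [Units.val_mul, ← Matrix.mulVec_mulVec, h1]
    have h3 : x * (x⁻¹ * g * x) = g * x := by group
    rw [h3, Units.val_mul, ← Matrix.mulVec_mulVec] at h2
    exact h2
  have hbW : b ∈ W := by
    intro g hg
    exact hb ⟨g, hg⟩
  rcases invariant_eq hx W hWinv with h | h
  · exfalso
    rw [h, Submodule.mem_bot] at hbW
    exact hb0 hbW.symm
  · intro g hg
    apply Units.ext
    apply Matrix.ext_of_mulVec_single
    intro i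
    have h5 : (Pi.single i 1 : V5) ∈ W := by rw [h]; exact Submodule.mem_top
    rw [Units.val_one, Matrix.one_mulVec]
    exact h5 g hg

lemma num_aux {p i : ℕ} (hp : p.Prime) (hp2 : p ≠ 2) (hp41 : p ≠ 41)
    (hd : p ^ i ∣ 2^40*3^6*5^6*7*11*13*17^2*31*41*257) (hm : p ^ i ≡ 1 [MOD 41]) : i = 0 := by
  by_contra hi
  have hpd : p ∣ 2^40*3^6*5^6*7*11*13*17^2*31*41*257 := (dvd_pow_self p hi).trans hd
  have hq : ∀ q : ℕ, q.Prime → p ∣ q → p = q := fun q hq h => (Nat.prime_dvd_prime_iff_eq hp hq).1 h
  have hle : ∀ q v : ℕ, p = q → ¬ q ^ (v + 1) ∣ 2^40*3^6*5^6*7*11*13*17^2*31*41*257 → i ≤ v := by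
    intro q v h1 h2
    by_contra h3
    push Not at h3
    apply h2
    rw [← h1]
    exact (pow_dvd_pow p h3).trans hd
  have h3 : p = 3 ∨ p = 5 ∨ p = 7 ∨ p = 11 ∨ p = 13 ∨ p = 17 ∨ p = 31 ∨ p = 257 := by
    rcases (Nat.Prime.dvd_mul hp).1 hpd with h | h
    · rcases (Nat.Prime.dvd_mul hp).1 h with h | h
      · rcases (Nat.Prime.dvd_mul hp).1 h with h | h
        · rcases (Nat.Prime.dvd_mul hp).1 h with h | h
          · rcases (Nat.Prime.dvd_mul hp).1 h with h | h
            · rcases (Nat.Prime.dvd_mul hp).1 h with h | h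
              · rcases (Nat.Prime.dvd_mul hp).1 h with h | h
                · rcases (Nat.Prime.dvd_mul hp).1 h with h | h
                  · rcases (Nat.Prime.dvd_mul hp).1 h with h | h
                    · exact absurd (hq 2 (by norm_num) (hp.dvd_of_dvd_pow h)) hp2
                    · left; exact hq 3 (by norm_num) (hp.dvd_of_dvd_pow h)
                  · right; left; exact hq 5 (by norm_num) (hp.dvd_of_dvd_pow h)
                · right; right; left; exact hq 7 (by norm_num) h
              · right; right; right; left; exact hq 11 (by norm_num) h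
            · right; right; right; right; left; exact hq 13 (by norm_num) h
          · right; right; right; right; right; left
            exact hq 17 (by norm_num) (hp.dvd_of_dvd_pow h)
        · right; right; right; right; right; right; left; exact hq 31 (by norm_num) h
      · exact absurd (hq 41 (by norm_num) h) hp41
    · right; right; right; right; right; right; right; exact hq 257 (by norm_num) h
  rcases h3 with h | h | h | h | h | h | h | h
  · have := hle 3 6 h (by norm_num)
    subst h
    interval_cases i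
    · exact hi rfl
    all_goals (revert hm; decide)
  · have := hle 5 6 h (by norm_num)
    subst h
    interval_cases i
    · exact hi rfl
    all_goals (revert hm; decide)
  · have := hle 7 1 h (by norm_num)
    subst h
    interval_cases i
    · exact hi rfl
    all_goals (revert hm; decide)
  · have := hle 11 1 h (by norm_num)
    subst h
    interval_cases i
    · exact hi rfl
    all_goals (revert hm; decide)
  · have := hle 13 1 h (by norm_num)
    subst h
    interval_cases i
    · exact hi rfl
    all_goals (revert hm; decide)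
  · have := hle 17 2 h (by norm_num)
    subst h
    interval_cases i
    · exact hi rfl
    all_goals (revert hm; decide)
  · have := hle 31 1 h (by norm_num)
    subst h
    interval_cases i
    · exact hi rfl
    all_goals (revert hm; decide)
  · have := hle 257 1 h (by norm_num)
    subst h
    interval_cases i
    · exact hi rfl
    all_goals (revert hm; decide)

/-- A `p`-group, `p ≠ 2, 41`, normalised by an element of order 41 is centralised by it. -/
lemma p_group_commute {x : G5} (hx : orderOf x = 41) {p : ℕ} (hp : p.Prime) (hp2 : p ≠ 2)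
    (hp41 : p ≠ 41) (P : Subgroup G5) (hPp : IsPGroup p P)
    (hP : ∀ g ∈ P, x * g * x⁻¹ ∈ P) : ∀ g ∈ P, Commute x g := by
  classical
  have hx41 : x ^ 41 = 1 := by rw [← hx]; exact pow_orderOf_eq_one x
  have : Fact p.Prime := ⟨hp⟩
  have : Fintype P := Fintype.ofFinite _
  let f : Function.End P := fun g => ⟨x * g.1 * x⁻¹, hP _ g.2⟩
  have hpow : ∀ m : ℕ, ∀ g : P, ((f ^ m) g).1 = x ^ m * g.1 * (x ^ m)⁻¹ := by
    intro m
    induction m with
    | zero => intro g; rw [pow_zero, pow_zero]; simp; rfl
    | succ m ih =>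
      intro g
      rw [pow_succ', pow_succ']
      show x * ((f ^ m) g).1 * x⁻¹ = _
      rw [ih g]
      group
  have hf : f ^ 41 ^ 1 = 1 := by
    funext g
    apply Subtype.ext
    rw [pow_one, hpow, hx41]
    simp
    rfl
  have h1 := Equiv.Perm.card_fixedPoints_modEq (α := P) (f := f) (p := 41) (n := 1) hf
  let C : Subgroup P := (Subgroup.centralizer {x}).subgroupOf P
  have hC : Nat.card C = Fintype.card f.fixedPoints := by
    rw [← Nat.card_eq_fintype_card]
    apply Nat.card_congr
    refine ⟨fun w => ⟨w.1, ?_⟩, fun w => ⟨w.1, ?_⟩, ?_, ?_⟩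
    · apply Subtype.ext
      have h2 := w.2
      rw [Subgroup.mem_subgroupOf, Subgroup.mem_centralizer_singleton_iff] at h2
      show x * w.1.1 * x⁻¹ = w.1.1
      rw [← h2]
      group
    · have h2 : x * w.1.1 * x⁻¹ = w.1.1 := congrArg Subtype.val w.2
      rw [Subgroup.mem_subgroupOf, Subgroup.mem_centralizer_singleton_iff]
      exact (mul_inv_eq_iff_eq_mul.1 h2).symm
    · intro w; rfl
    · intro w; rfl
  have h3 : Nat.card C * C.index = Nat.card P := Subgroup.card_mul_index C
  obtain ⟨n, hn⟩ := (IsPGroup.iff_card).1 hPp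
  have h4 : C.index ∣ p ^ n := by
    rw [← hn, ← h3]; exact Dvd.intro_left _ rfl
  obtain ⟨i, _, hi⟩ := (Nat.dvd_prime_pow hp).1 h4
  have h5 : Nat.card C ∣ p ^ n := by
    rw [← hn, ← h3]; exact Dvd.intro _ rfl
  obtain ⟨j, _, hj⟩ := (Nat.dvd_prime_pow hp).1 h5
  have h6 : p ^ i ≡ 1 [MOD 41] := by
    rw [← hC, ← Nat.card_eq_fintype_card, ← h3, hi, hj] at h1
    have h7 : Nat.gcd 41 (p ^ j) = 1 := by
      apply Nat.Coprime.pow_right
      exact (Nat.coprime_primes (by norm_num) hp).2 hp41.symm
    apply Nat.ModEq.cancel_left_of_coprime h7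
    rw [mul_one]
    exact h1
  have h8 : p ^ i ∣ 2^40*3^6*5^6*7*11*13*17^2*31*41*257 := by
    rw [← card_G5, ← hi]
    exact (Dvd.intro_left _ h3).trans (Subgroup.card_subgroup_dvd_card P)
  have h9 := num_aux hp hp2 hp41 h8 h6
  have h10 : C = ⊤ := by
    rw [← Subgroup.index_eq_one, hi, h9, pow_zero]
  intro g hg
  have h11 : (⟨g, hg⟩ : P) ∈ C := by rw [h10]; exact Subgroup.mem_top _
  rw [Subgroup.mem_subgroupOf, Subgroup.mem_centralizer_singleton_iff] at h11
  exact h11.symm

/-- An element of order 41 of a solvable subgroup of `GL_5(16)` generates a normal subgroup. -/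
theorem sol41 {x : G5} (hx : orderOf x = 41) (H : Subgroup G5) (hH : Group.IsSolvable H)
    (hxH : x ∈ H) : ∀ h ∈ H, h * x * h⁻¹ ∈ zpowers x := by
  classical
  set x' : H := ⟨x, hxH⟩ with hx'
  have hord : orderOf x' = 41 := by
    rw [← hx]; exact (Subgroup.orderOf_mk x hxH)
  have hx41 : x' ^ 41 = 1 := by rw [← hord]; exact pow_orderOf_eq_one x'
  have hcardH : Nat.card H ∣ 2^40*3^6*5^6*7*11*13*17^2*31*41*257 := by
    rw [← card_G5]; exact Subgroup.card_subgroup_dvd_card H
  have key := conj_mem_zpowers_of_solvable (K := H) (r := 41) (x := x') hord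
    (by
      intro h
      have := h.trans hcardH
      revert this
      norm_num)
    (by
      intro N hN h41
      apply commute_of_local hx41 N h41
      intro p hp P hPN hPp hPx
      -- transport to GL_5
      have hQx : ∀ g ∈ P.map H.subtype, x * g * x⁻¹ ∈ P.map H.subtype := by
        rintro _ ⟨g, hg, rfl⟩
        exact ⟨x' * g * x'⁻¹, hPx g hg, rfl⟩
      have hQp : IsPGroup p (P.map H.subtype) := hPp.map _
      by_cases hp2 : p = 2
      · subst hp2
        intro g hg
        have h1 := two_group_trivial hx (P.map H.subtype) hQp hQx g.1 ⟨g, hg, rfl⟩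
        have h2 : g = 1 := Subtype.ext h1
        rw [h2]
        exact Commute.one_right _
      · by_cases hp41 : p = 41
        · subst hp41
          obtain ⟨n, hn⟩ := (IsPGroup.iff_card).1 hPp
          have h1 : Nat.card P ∣ Nat.card N := Subgroup.card_dvd_of_le hPN
          have hn0 : n = 0 := by
            by_contra hn0
            apply h41
            rw [hn] at h1
            exact (dvd_pow_self 41 hn0).trans h1
          rw [hn0, pow_zero] at hn
          have hPbot : P = ⊥ := Subgroup.card_eq_one.1 hn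
          intro g hg
          rw [hPbot, Subgroup.mem_bot] at hg
          rw [hg]
          exact Commute.one_right _
        · intro g hg
          have h1 := p_group_commute hx hp hp2 hp41 (P.map H.subtype) hQp hQx g.1 ⟨g, hg, rfl⟩
          exact Subtype.ext h1)
  intro h hh
  obtain ⟨k, hk⟩ := key ⟨h, hh⟩
  exact ⟨k, congrArg Subtype.val hk⟩

end Pool.Agent.H33.Sol
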