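import Mathlib
import Pool.Agent.H33.Sol.Sol41

set_option autoImplicit false

namespace Pool.Agent.H33.Sol

open Matrix Subgroup

abbrev M5 : Type := Matrix (Fin 5) (Fin 5) F16

lemma exists_poly {t : G5} (ht : orderOf t = 41) (h : M5) (hc : h * t.1 = t.1 * h) :
    ∃ p : Polynomial F16, h = Polynomial.aeval t.1 p := by
  classical
  set e : V5 := Pi.single 0 1 with he
  have he0 : e ≠ 0 := by
    intro h0
    have := congrFun h0 0
    rw [he] at this
    simp at this
  let W : Submodule F16 V5 :=
    { carrier := {v | ∃ p : Polynomial F16, v = (Polynomial.aeval t.1 p : M5) *ᵥ e}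
      add_mem' := by
        rintro a c ⟨p, rfl⟩ ⟨q, rfl⟩
        exact ⟨p + q, by rw [map_add, Matrix.add_mulVec]⟩
      zero_mem' := ⟨0, by rw [map_zero, Matrix.zero_mulVec]⟩
      smul_mem' := by
        rintro c a ⟨p, rfl⟩
        exact ⟨c • p, by rw [map_smul, Matrix.smul_mulVec]⟩ }
  have hW : ∀ w ∈ W, t.1 *ᵥ w ∈ W := by
    rintro w ⟨p, rfl⟩
    refine ⟨Polynomial.X * p, ?_⟩
    rw [map_mul, Polynomial.aeval_X, ← Matrix.mulVec_mulVec]
  have heW : e ∈ W := ⟨1, by rw [map_one, Matrix.one_mulVec]⟩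
  have hWtop : W = ⊤ := by
    rcases invariant_eq ht W hW with h1 | h1
    · exfalso
      rw [h1, Submodule.mem_bot] at heW
      exact he0 heW
    · exact h1
  obtain ⟨p, hp⟩ : h *ᵥ e ∈ W := by rw [hWtop]; exact Submodule.mem_top
  refine ⟨p, ?_⟩
  let W2 : Submodule F16 V5 :=
    { carrier := {v | h *ᵥ v = (Polynomial.aeval t.1 p : M5) *ᵥ v}
      add_mem' := by
        intro a c ha hc
        simp only [Set.mem_ofPred_eq] at *
        rw [Matrix.mulVec_add, Matrix.mulVec_add, ha, hc]
      zero_mem' := by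
        simp only [Set.mem_ofPred_eq]
        rw [Matrix.mulVec_zero, Matrix.mulVec_zero]
      smul_mem' := by
        intro c a ha
        simp only [Set.mem_ofPred_eq] at *
        rw [Matrix.mulVec_smul, Matrix.mulVec_smul, ha] }
  have hcp : (Polynomial.aeval t.1 p : M5) * t.1 = t.1 * (Polynomial.aeval t.1 p : M5) := by
    have h1 : (Polynomial.aeval t.1 (p * Polynomial.X) : M5) =
      Polynomial.aeval t.1 (Polynomial.X * p) := by rw [mul_comm]
    rwa [map_mul, map_mul, Polynomial.aeval_X] at h1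
  have hW2 : ∀ w ∈ W2, t.1 *ᵥ w ∈ W2 := by
    intro w hw
    show h *ᵥ (t.1 *ᵥ w) = (Polynomial.aeval t.1 p : M5) *ᵥ (t.1 *ᵥ w)
    have hw' : h *ᵥ w = (Polynomial.aeval t.1 p : M5) *ᵥ w := hw
    rw [Matrix.mulVec_mulVec, hc, ← Matrix.mulVec_mulVec, hw', Matrix.mulVec_mulVec,
      Matrix.mulVec_mulVec, hcp]
  have heW2 : e ∈ W2 := hp
  have hW2top : W2 = ⊤ := by
    rcases invariant_eq ht W2 hW2 with h1 | h1
    · exfalso
      rw [h1, Submodule.mem_bot] at heW2
      exact he0 heW2
    · exact h1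
  apply Matrix.ext_of_mulVec_single
  intro i
  have h5 : (Pi.single i 1 : V5) ∈ W2 := by rw [hW2top]; exact Submodule.mem_top
  exact h5

/-- The centraliser of an element of order 41 is commutative. -/
theorem cent_comm {t : G5} (ht : orderOf t = 41) {a b : G5} (ha : Commute a t)
    (hb : Commute b t) : Commute a b := by
  obtain ⟨p, hp⟩ := exists_poly ht a.1 (congrArg Units.val ha.eq)
  obtain ⟨q, hq⟩ := exists_poly ht b.1 (congrArg Units.val hb.eq)
  apply Units.ext
  rw [Units.val_mul, Units.val_mul, hp, hq, ← map_mul, ← map_mul, mul_comm]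

/-- The unitary group, as a subgroup of `GL_5(16)`. -/
def U5 : Subgroup G5 where
  carrier := {u | u.1 * u.1ᴴ = 1}
  mul_mem' := by
    intro a b ha hb
    simp only [Set.mem_ofPred_eq] at *
    rw [Units.val_mul, Matrix.conjTranspose_mul, mul_assoc, ← mul_assoc b.1, hb, one_mul, ha]
  one_mem' := by
    simp
  inv_mem' := by
    intro a ha
    simp only [Set.mem_ofPred_eq] at *
    have h1 : a.1ᴴ = a⁻¹.1 := by
      have : a⁻¹.1 * (a.1 * a.1ᴴ) = a⁻¹.1 := by rw [ha, mul_one]
      rw [← mul_assoc, Units.inv_mul, one_mul] at this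
      exact this
    rw [← h1, Matrix.conjTranspose_conjTranspose, h1, Units.inv_mul]

lemma mem_U5 {u : G5} : u ∈ U5 ↔ u.1 * u.1ᴴ = 1 := Iff.rfl

lemma U5_star {u : G5} (hu : u ∈ U5) : u.1ᴴ = u⁻¹.1 := by
  have h1 : u⁻¹.1 * (u.1 * u.1ᴴ) = u⁻¹.1 := by rw [mem_U5.1 hu, mul_one]
  rw [← mul_assoc, Units.inv_mul, one_mul] at h1
  exact h1

lemma F16_pow (c : F16) : c ^ 1024 = star c := by
  have h1 : ∀ c : F16, c ^ 16 = c := by
    intro c
    have := FiniteField.pow_card c
    rwa [F16.card] at this
  rw [F16.star_def]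
  calc c ^ 1024 = ((c ^ 16) ^ 16) ^ 4 := by rw [← pow_mul, ← pow_mul]
    _ = c ^ 4 := by rw [h1, h1]

instance : CharP M5 2 := inferInstance

lemma star_eq_pow {x : G5} (hx : orderOf x = 41) (hxU : x ∈ U5) (h : M5)
    (hc : h * x.1 = x.1 * h) : h ^ 1024 = hᴴ := by
  obtain ⟨p, rfl⟩ := exists_poly hx h hc
  clear hc
  induction p using Polynomial.induction_on' with
  | add p q hp hq =>
    have hcomm : Commute (Polynomial.aeval x.1 p : M5) (Polynomial.aeval x.1 q) := by
      show _ * _ = _ * _
      rw [← map_mul, ← map_mul, mul_comm]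
    rw [map_add, Matrix.conjTranspose_add, ← hp, ← hq]
    have := add_pow_expChar_pow_of_commute (p := 2) (n := 10) hcomm
    norm_num at this
    exact this
  | monomial n a =>
    have hx1 : x ^ 1024 = x⁻¹ := by
      have h41 : x ^ 41 = 1 := by rw [← hx]; exact pow_orderOf_eq_one x
      rw [eq_inv_iff_mul_eq_one, ← pow_succ]
      calc x ^ (1024 + 1) = (x ^ 41) ^ 25 := by rw [← pow_mul]
        _ = 1 := by rw [h41, one_pow]
    rw [Polynomial.aeval_monomial, ← Algebra.smul_def, Matrix.conjTranspose_smul,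
      Matrix.conjTranspose_pow, smul_pow, F16_pow, U5_star hxU, ← hx1, ← pow_mul, mul_comm n 1024,
      pow_mul, Units.val_pow_eq_pow_val]

lemma pow_1025 {x : G5} (hx : orderOf x = 41) (hxU : x ∈ U5) {h : G5} (hU : h ∈ U5)
    (hc : Commute h x) : h ^ 1025 = 1 := by
  have h1 := star_eq_pow hx hxU h.1 (congrArg Units.val hc.eq)
  have h2 := mem_U5.1 hU
  apply Units.ext
  rw [Units.val_pow_eq_pow_val, pow_succ', h1, h2, Units.val_one]

/-- the commutative algebra generated by `x` is a domain -/
lemma cent_cyclic {x : G5} (hx : orderOf x = 41) :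
    IsCyclic (Subgroup.centralizer ({x} : Set G5)) := by
  classical
  let R := Algebra.adjoin F16 ({x.1} : Set M5)
  let _ : CommRing R := Algebra.adjoinCommRingOfComm F16 (by
    rintro a ha b hb
    rw [Set.mem_singleton_iff] at ha hb
    rw [ha, hb])
  have hcomm : ∀ a : R, a.1 * x.1 = x.1 * a.1 := by
    intro a
    have ha : a.1 ∈ Algebra.adjoin F16 ({x.1} : Set M5) := a.2
    rw [Algebra.adjoin_singleton_eq_range_aeval] at ha
    obtain ⟨p, hp⟩ := ha
    have hp' : (Polynomial.aeval x.1 p : M5) = a.1 := hp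
    have h1 : (Polynomial.aeval x.1 (p * Polynomial.X) : M5) =
      Polynomial.aeval x.1 (Polynomial.X * p) := by rw [mul_comm]
    rw [map_mul, map_mul, Polynomial.aeval_X, hp'] at h1
    exact h1
  have : NoZeroDivisors R := ⟨by
    intro a b hab
    by_cases ha : a = 0
    · left; exact ha
    · right
      let W : Submodule F16 V5 :=
        { carrier := {v | a.1 *ᵥ v = 0}
          add_mem' := by
            intro u v hu hv
            simp only [Set.mem_ofPred_eq] at *
            rw [Matrix.mulVec_add, hu, hv, add_zero]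
          zero_mem' := by
            simp only [Set.mem_ofPred_eq]
            rw [Matrix.mulVec_zero]
          smul_mem' := by
            intro c v hv
            simp only [Set.mem_ofPred_eq] at *
            rw [Matrix.mulVec_smul, hv, smul_zero] }
      have hW : ∀ w ∈ W, x.1 *ᵥ w ∈ W := by
        intro w hw
        have hw' : a.1 *ᵥ w = 0 := hw
        show a.1 *ᵥ (x.1 *ᵥ w) = 0
        rw [Matrix.mulVec_mulVec, hcomm a, ← Matrix.mulVec_mulVec, hw', Matrix.mulVec_zero]
      rcases invariant_eq hx W hW with h1 | h1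
      · apply Subtype.ext
        apply Matrix.ext_of_mulVec_single
        intro i
        have h2 : b.1 *ᵥ (Pi.single i 1 : V5) ∈ W := by
          show a.1 *ᵥ (b.1 *ᵥ (Pi.single i 1 : V5)) = 0
          have h3 : a.1 * b.1 = 0 := congrArg Subtype.val hab
          rw [Matrix.mulVec_mulVec, h3, Matrix.zero_mulVec]
        rw [h1, Submodule.mem_bot] at h2
        rw [h2]
        show 0 = (0 : M5) *ᵥ _
        rw [Matrix.zero_mulVec]
      · exfalso
        apply ha
        apply Subtype.ext
        apply Matrix.ext_of_mulVec_single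
        intro i
        have h2 : (Pi.single i 1 : V5) ∈ W := by rw [h1]; exact Submodule.mem_top
        have h3 : a.1 *ᵥ (Pi.single i 1 : V5) = 0 := h2
        rw [h3]
        show 0 = (0 : M5) *ᵥ _
        rw [Matrix.zero_mulVec]⟩
  have : Nontrivial R := inferInstance
  have : IsDomain R := NoZeroDivisors.to_isDomain R
  have hmem : ∀ g : Subgroup.centralizer ({x} : Set G5), g.1.1 ∈ R := by
    intro g
    have h1 := g.2
    rw [Subgroup.mem_centralizer_singleton_iff] at h1
    obtain ⟨p, hp⟩ := exists_poly hx g.1.1 (congrArg Units.val h1)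
    rw [hp]
    exact Polynomial.aeval_mem_adjoin_singleton _ _
  let f : Subgroup.centralizer ({x} : Set G5) →* R :=
    { toFun := fun g => ⟨g.1.1, hmem g⟩
      map_one' := rfl
      map_mul' := fun _ _ => rfl }
  apply isCyclic_of_injective_ringHom f
  intro a b hab
  apply Subtype.ext
  apply Units.ext
  exact congrArg Subtype.val hab

/-- the centraliser of `x` in the unitary group -/
theorem cent_unitary {x w : G5} (hx : orderOf x = 41) (hxU : x ∈ U5) (hw : orderOf w = 1025)
    (hwx : Commute w x) {h : G5} (hU : h ∈ U5) (hc : Commute h x) : h ∈ zpowers w := by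
  classical
  have hcyc := cent_cyclic hx
  let C := Subgroup.centralizer ({x} : Set G5)
  have : Fintype C := Fintype.ofFinite _
  let w' : C := ⟨w, Subgroup.mem_centralizer_singleton_iff.2 hwx.eq⟩
  let h' : C := ⟨h, Subgroup.mem_centralizer_singleton_iff.2 hc.eq⟩
  have hw' : orderOf w' = 1025 := by rw [← hw]; exact Subgroup.orderOf_mk w _
  have hcard := IsCyclic.card_pow_eq_one_le (α := C) (n := 1025) (by norm_num)
  have hsub : (zpowers w' : Set C).toFinset ⊆ Finset.univ.filter (fun a : C => a ^ 1025 = 1) := by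
    intro a ha
    rw [Set.mem_toFinset] at ha
    obtain ⟨k, rfl⟩ := ha
    rw [Finset.mem_filter]
    refine ⟨Finset.mem_univ _, ?_⟩
    show (w' ^ k) ^ 1025 = 1
    rw [← zpow_natCast, ← _root_.zpow_mul, mul_comm, _root_.zpow_mul, zpow_natCast, ← hw', pow_orderOf_eq_one,
      _root_.one_zpow]
  have hcard2 : ((zpowers w' : Set C).toFinset).card = 1025 := by
    rw [Set.toFinset_card, ← hw', ← Nat.card_zpowers, Nat.card_eq_fintype_card]
    rfl
  have heq := Finset.eq_of_subset_of_card_le hsub (by rw [hcard2]; exact hcard)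
  have h1 : h' ∈ Finset.univ.filter (fun a : C => a ^ 1025 = 1) := by
    rw [Finset.mem_filter]
    refine ⟨Finset.mem_univ _, ?_⟩
    apply Subtype.ext
    show h ^ 1025 = 1
    exact pow_1025 hx hxU hU hc
  rw [← heq, Set.mem_toFinset] at h1
  obtain ⟨k, hk⟩ := h1
  exact ⟨k, congrArg Subtype.val hk⟩

end Pool.Agent.H33.Sol
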