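import Mathlib

set_option autoImplicit false

namespace Pool.Agent.H33.Sol

open Finset

/-- apply the matrix packed in `A` to the packed vector `v` -/
def apm (A v : ℕ) : ℕ :=
  Nat.mod (Nat.land (Nat.mul A v)
    0x8000000000000000000000000800000000000000000000000080000000000000000000000008000000000000000000000000800000000000000000000000080000000000000000000000008000000000000000000000000800000000000000000000000080000000000000000000000008000000000000000000000000800000000000000000000000080000000000000000000000008000000000000000000000000800000000000000000000000080000000000000000000000008000000000000000000000000800000000000000000000000080000000000000000000000008000000000000000000000000800000000000000000000000)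
    0x1ffffffffffffffffffffffffff

/-- the number with base-32 digits `c 0, …, c (n-1)` -/
def Sd (c : ℕ → ℕ) (n : ℕ) : ℕ := ∑ m ∈ range n, c m * 32 ^ m

lemma Sd_front (c : ℕ → ℕ) (n : ℕ) : Sd c (n + 1) = c 0 + 32 * Sd (fun m => c (m + 1)) n := by
  unfold Sd
  rw [sum_range_succ', mul_sum, pow_zero, mul_one, add_comm]
  congr 1
  apply sum_congr rfl
  intro m _
  rw [pow_succ]; ring

lemma Sd_back (c : ℕ → ℕ) (n : ℕ) : Sd c (n + 1) = Sd c n + c n * 32 ^ n := by
  unfold Sd
  rw [sum_range_succ]

lemma Sd_digit : ∀ {n t : ℕ} {c : ℕ → ℕ}, (∀ m < n, c m < 32) → t < n →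
    Sd c n / 32 ^ t % 32 = c t := by
  intro n
  induction n with
  | zero => intro t c _ ht; omega
  | succ n ih =>
    intro t c hc ht
    rw [Sd_front]
    rcases t with _ | t
    · have := hc 0 (by omega)
      rw [pow_zero, Nat.div_one]
      omega
    · have h1 := ih (t := t) (c := fun m => c (m + 1)) (fun m hm => hc (m + 1) (by omega)) (by omega)
      have h0 := hc 0 (by omega)
      rw [pow_succ', ← Nat.div_div_eq_div_mul]
      have h2 : (c 0 + 32 * Sd (fun m => c (m + 1)) n) / 32 = Sd (fun m => c (m + 1)) n := by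
        omega
      rw [h2]
      exact h1

lemma Sd_lt : ∀ {n : ℕ} {c : ℕ → ℕ}, (∀ m < n, c m < 32) → Sd c n < 32 ^ n := by
  intro n
  induction n with
  | zero => intro c _; simp [Sd]
  | succ n ih =>
    intro c hc
    rw [Sd_front, pow_succ]
    have h1 := ih (c := fun m => c (m + 1)) (fun m hm => hc (m + 1) (by omega))
    have h0 := hc 0 (by omega)
    omega

/-- coefficients of a product -/
def conv (a v : ℕ → ℕ) (n s : ℕ) : ℕ := ∑ l ∈ range n, (if l ≤ s then a (s - l) else 0) * v l

lemma conv_succ (a v : ℕ → ℕ) (n s : ℕ) :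
    conv a v (n + 1) s = conv a v n s + (if n ≤ s then a (s - n) else 0) * v n := by
  unfold conv
  rw [sum_range_succ]

lemma Sd_add (c d : ℕ → ℕ) (n : ℕ) : Sd (fun s => c s + d s) n = Sd c n + Sd d n := by
  unfold Sd
  rw [← sum_add_distrib]
  apply sum_congr rfl
  intro m _
  ring

lemma Sd_mul {a : ℕ → ℕ} {N : ℕ} (ha : ∀ m, N ≤ m → a m = 0) (v : ℕ → ℕ) (n : ℕ) :
    Sd a N * Sd v n = Sd (conv a v n) (N + n) := by
  induction n with
  | zero =>
    unfold Sd conv
    simp
  | succ n ih =>
    rw [Sd_back v n, mul_add, ih]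
    have h1 : Sd (conv a v (n + 1)) (N + (n + 1)) =
        Sd (fun s => conv a v n s + (if n ≤ s then a (s - n) else 0) * v n) (N + (n + 1)) := by
      unfold Sd
      apply sum_congr rfl
      intro s _
      rw [conv_succ]
    rw [h1, Sd_add]
    congr 1
    · -- no contribution at the top
      have h2 : N + (n + 1) = (N + n) + 1 := by omega
      rw [h2, Sd_back]
      have h3 : conv a v n (N + n) = 0 := by
        unfold conv
        apply sum_eq_zero
        intro l hl
        rw [mem_range] at hl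
        rw [if_pos (by omega), ha _ (by omega), zero_mul]
      rw [h3, zero_mul, add_zero]
    · -- the shifted copy
      unfold Sd
      have h2 : N + (n + 1) = n + (N + 1) := by omega
      rw [h2, sum_range_add, sum_range_succ]
      have h3 : ∑ s ∈ range n, ((if n ≤ s then a (s - n) else 0) * v n) * 32 ^ s = 0 := by
        apply sum_eq_zero
        intro s hs
        rw [mem_range] at hs
        rw [if_neg (by omega), zero_mul, zero_mul]
      beta_reduce
      rw [h3, zero_add, if_pos (by omega), Nat.add_sub_cancel_left, ha N le_rfl, zero_mul, zero_mul,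
        add_zero, sum_mul]
      apply sum_congr rfl
      intro m _
      rw [if_pos (by omega), Nat.add_sub_cancel_left, pow_add]
      ring

lemma and_split {k a b c d : ℕ} (ha : a < 2 ^ k) (hc : c < 2 ^ k) :
    (a + 2 ^ k * b) &&& (c + 2 ^ k * d) = (a &&& c) + 2 ^ k * (b &&& d) := by
  have h1 : ((a + 2 ^ k * b) &&& (c + 2 ^ k * d)) % 2 ^ k = a &&& c := by
    rw [Nat.and_mod_two_pow, Nat.add_mul_mod_self_left, Nat.add_mul_mod_self_left,
      Nat.mod_eq_of_lt ha, Nat.mod_eq_of_lt hc]
  have h2 : ((a + 2 ^ k * b) &&& (c + 2 ^ k * d)) / 2 ^ k = b &&& d := by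
    have hp : 0 < 2 ^ k := Nat.pos_of_ne_zero (by positivity)
    rw [Nat.and_div_two_pow, Nat.add_mul_div_left _ _ hp, Nat.add_mul_div_left _ _ hp,
      Nat.div_eq_of_lt ha, Nat.div_eq_of_lt hc, zero_add, zero_add]
  have h3 := Nat.mod_add_div ((a + 2 ^ k * b) &&& (c + 2 ^ k * d)) (2 ^ k)
  rw [h1, h2] at h3
  exact h3.symm

/-- the mask with bits at `K i + r` -/
def mk (K r n : ℕ) : ℕ := ∑ i ∈ range n, 2 ^ (K * i + r)

lemma mk_succ (K r n : ℕ) : mk K r (n + 1) = 2 ^ r + 2 ^ K * mk K r n := by
  unfold mk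
  rw [sum_range_succ', mul_sum, add_comm, mul_zero, zero_add]
  congr 1
  apply sum_congr rfl
  intro i _
  rw [← pow_add]
  congr 1
  ring

lemma and_mk {K r : ℕ} (hr : r < K) : ∀ (n N : ℕ), N &&& mk K r n =
    ∑ i ∈ range n, (N / 2 ^ (K * i + r) % 2) * 2 ^ (K * i + r) := by
  intro n
  induction n with
  | zero => intro N; simp [mk]
  | succ n ih =>
    intro N
    have h1 : N = N % 2 ^ K + 2 ^ K * (N / 2 ^ K) := (Nat.mod_add_div N (2 ^ K)).symm
    have h2 : N &&& mk K r (n + 1) = (N % 2 ^ K + 2 ^ K * (N / 2 ^ K)) &&&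
        (2 ^ r + 2 ^ K * mk K r n) := by
      rw [mk_succ, ← h1]
    have hlt : 2 ^ r < 2 ^ K := Nat.pow_lt_pow_right (by norm_num) hr
    rw [h2, and_split (Nat.mod_lt _ (by positivity)) hlt, ih, sum_range_succ', mul_sum,
      add_comm]
    congr 1
    · apply sum_congr rfl
      intro i _
      have h3 : 2 ^ (K * (i + 1) + r) = 2 ^ K * 2 ^ (K * i + r) := by
        rw [← pow_add]; congr 1; ring
      rw [h3, ← Nat.div_div_eq_div_mul]
      ring
    · rw [Nat.and_two_pow, mul_zero, zero_add]
      congr 1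
      rw [Nat.testBit_mod_two_pow, decide_eq_true hr, Bool.true_and,
        Nat.testBit_eq_decide_div_mod_eq]
      rcases Nat.mod_two_eq_zero_or_one (N / 2 ^ r) with h | h <;> simp [h]

/-- the modulus `2 ^ 105 - 1` -/
def M105 : ℕ := 0x1ffffffffffffffffffffffffff

lemma M105_eq : 2 ^ 105 = M105 + 1 := by decide +kernel

lemma mk_eq : mk 100 95 20 =
    0x8000000000000000000000000800000000000000000000000080000000000000000000000008000000000000000000000000800000000000000000000000080000000000000000000000008000000000000000000000000800000000000000000000000080000000000000000000000008000000000000000000000000800000000000000000000000080000000000000000000000008000000000000000000000000800000000000000000000000080000000000000000000000008000000000000000000000000800000000000000000000000080000000000000000000000008000000000000000000000000800000000000000000000000 := by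
  unfold mk
  decide +kernel

lemma apm_def (A v : ℕ) : apm A v = ((A * v) &&& mk 100 95 20) % M105 := by
  rw [mk_eq]
  rfl

attribute [irreducible] apm

lemma pow_modEq {i : ℕ} (hi : i < 20) : 2 ^ (100 * i + 95) ≡ 32 ^ (19 - i) [MOD M105] := by
  have h1 : (2 : ℕ) ^ (100 * i + 95) = (M105 + 1) ^ i * 32 ^ (19 - i) := by
    have h32 : (32 : ℕ) = 2 ^ 5 := by norm_num
    rw [h32, ← M105_eq, ← pow_mul, ← pow_mul, ← pow_add]
    congr 1
    omega
  rw [h1]
  have h2 : M105 + 1 ≡ 1 [MOD M105] := Nat.add_modEq_left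
  have h3 := (h2.pow i).mul_right (32 ^ (19 - i))
  rw [one_pow, one_mul] at h3
  exact h3

lemma conv_lt {a v : ℕ → ℕ} (ha : ∀ m, a m ≤ 1) (hv : ∀ l, v l ≤ 1) (s : ℕ) :
    conv a v 20 s < 32 := by
  unfold conv
  have h0 : ∑ l ∈ range 20, (if l ≤ s then a (s - l) else 0) * v l ≤ ∑ l ∈ range 20, 1 := by
    apply sum_le_sum
    intro l _
    have h1 := hv l
    have h2 : (if l ≤ s then a (s - l) else 0) ≤ 1 := by
      split_ifs
      · exact ha _
      · omega
    exact Nat.mul_le_mul h2 h1
  rw [sum_const, card_range, smul_eq_mul, mul_one] at h0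
  omega

lemma bit_eq {c : ℕ → ℕ} (hc : ∀ s, c s < 32) {n i : ℕ} (hi : 20 * i + 19 < n) :
    Sd c n / 2 ^ (100 * i + 95) % 2 = c (20 * i + 19) % 2 := by
  have h1 := Sd_digit (n := n) (t := 20 * i + 19) (c := c) (fun m _ => hc m) hi
  have h2 : (2 : ℕ) ^ (100 * i + 95) = 32 ^ (20 * i + 19) := by
    have h32 : (32 : ℕ) = 2 ^ 5 := by norm_num
    rw [h32, ← pow_mul]
    congr 1
    ring
  rw [h2, ← h1, Nat.mod_mod_of_dvd _ (by norm_num : 2 ∣ 32)]

lemma sum_modEq {M : ℕ} {f g : ℕ → ℕ} : ∀ {n : ℕ}, (∀ i < n, f i ≡ g i [MOD M]) →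
    ∑ i ∈ range n, f i ≡ ∑ i ∈ range n, g i [MOD M] := by
  intro n
  induction n with
  | zero => intro _; exact Nat.ModEq.refl _
  | succ n ih =>
    intro h
    rw [sum_range_succ, sum_range_succ]
    exact (ih (fun i hi => h i (by omega))).add (h n (by omega))

/-- the coefficients of the result -/
def res (a v : ℕ → ℕ) (j : ℕ) : ℕ := (∑ l ∈ range 20, a (20 * (19 - j) + 19 - l) * v l) % 2

lemma res_lt (a v : ℕ → ℕ) (j : ℕ) : res a v j < 2 := Nat.mod_lt _ (by norm_num)

lemma res_sum (a v : ℕ → ℕ) :
    ∑ i ∈ range 20, (conv a v 20 (20 * i + 19) % 2) * 32 ^ (19 - i) = Sd (res a v) 20 := by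
  unfold Sd
  rw [← sum_range_reflect]
  apply sum_congr rfl
  intro j hj
  rw [mem_range] at hj
  have h4 : 20 - 1 - j = 19 - j := by omega
  have h5 : 19 - (19 - j) = j := by omega
  rw [h4, h5]
  have h6 : conv a v 20 (20 * (19 - j) + 19) % 2 = res a v j := by
    unfold conv res
    apply congrArg (fun n => n % 2)
    apply sum_congr rfl
    intro l hl
    rw [mem_range] at hl
    rw [if_pos (by omega)]
  rw [h6]

/-- the value of `apm` -/
theorem apm_eq {a v : ℕ → ℕ} (ha0 : ∀ m, 400 ≤ m → a m = 0) (ha : ∀ m, a m ≤ 1)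
    (hv : ∀ l, v l ≤ 1) : apm (Sd a 400) (Sd v 20) = Sd (res a v) 20 := by
  rw [apm_def, and_mk (by norm_num), Sd_mul ha0]
  have hsum : ∑ i ∈ range 20, (Sd (conv a v 20) (400 + 20) / 2 ^ (100 * i + 95) % 2) *
      2 ^ (100 * i + 95) ≡ ∑ i ∈ range 20, (conv a v 20 (20 * i + 19) % 2) * 32 ^ (19 - i)
      [MOD M105] := by
    apply sum_modEq
    intro i hi
    rw [bit_eq (conv_lt ha hv) (by omega)]
    exact (pow_modEq hi).mul_left _
  rw [res_sum] at hsum
  have hlt : Sd (res a v) 20 < M105 := by
    have h6 := Sd_lt (n := 20) (c := res a v) (fun m _ => by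
      have := res_lt a v m
      omega)
    refine lt_trans h6 ?_
    decide +kernel
  have h7 := hsum
  unfold Nat.ModEq at h7
  rw [h7, Nat.mod_eq_of_lt hlt]

end Pool.Agent.H33.Sol
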