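import Mathlib
import Pool.Agent.H33.Sol.Cent
import Pool.Agent.H33.Sol.Spread

set_option autoImplicit false

namespace Pool.Agent.H33.Sol

open Matrix Subgroup

lemma toNat_lt (a : F16) : a.toNat < 16 := Fin.isLt (n := 16) a

lemma toNat_inj {a b : F16} (h : a.toNat = b.toNat) : a = b := Fin.ext (n := 16) h

lemma toNat_add : ∀ a b : F16, (a + b).toNat = Nat.xor a.toNat b.toNat := by decide +kernel

lemma toNat_ofNat {n : ℕ} (h : n < 16) : (F16.ofNat n).toNat = n := Nat.mod_eq_of_lt h

/-- packing of vectors into 20 bits -/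
def enc (v : V5) : ℕ :=
  (v 0).toNat + 16 * ((v 1).toNat + 16 * ((v 2).toNat + 16 * ((v 3).toNat + 16 * (v 4).toNat)))

lemma enc_inj {v w : V5} (h : enc v = enc w) : v = w := by
  unfold enc at h
  have a0 := toNat_lt (v 0)
  have a1 := toNat_lt (v 1)
  have a2 := toNat_lt (v 2)
  have a3 := toNat_lt (v 3)
  have a4 := toNat_lt (v 4)
  have b0 := toNat_lt (w 0)
  have b1 := toNat_lt (w 1)
  have b2 := toNat_lt (w 2)
  have b3 := toNat_lt (w 3)
  have b4 := toNat_lt (w 4)
  funext i
  apply toNat_inj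
  fin_cases i
  · show (v 0).toNat = (w 0).toNat; omega
  · show (v 1).toNat = (w 1).toNat; omega
  · show (v 2).toNat = (w 2).toNat; omega
  · show (v 3).toNat = (w 3).toNat; omega
  · show (v 4).toNat = (w 4).toNat; omega

lemma enc_lt (v : V5) : enc v < 2 ^ 20 := by
  unfold enc
  have a0 := toNat_lt (v 0)
  have a1 := toNat_lt (v 1)
  have a2 := toNat_lt (v 2)
  have a3 := toNat_lt (v 3)
  have a4 := toNat_lt (v 4)
  norm_num
  omega

lemma xor_split {k a b c d : ℕ} (ha : a < 2 ^ k) (hc : c < 2 ^ k) :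
    (a + 2 ^ k * b) ^^^ (c + 2 ^ k * d) = (a ^^^ c) + 2 ^ k * (b ^^^ d) := by
  have h1 : ((a + 2 ^ k * b) ^^^ (c + 2 ^ k * d)) % 2 ^ k = a ^^^ c := by
    rw [Nat.xor_mod_two_pow, Nat.add_mul_mod_self_left, Nat.add_mul_mod_self_left,
      Nat.mod_eq_of_lt ha, Nat.mod_eq_of_lt hc]
  have h2 : ((a + 2 ^ k * b) ^^^ (c + 2 ^ k * d)) / 2 ^ k = b ^^^ d := by
    have hp : 0 < 2 ^ k := Nat.pos_of_ne_zero (by positivity)
    rw [Nat.xor_div_two_pow, Nat.add_mul_div_left _ _ hp, Nat.add_mul_div_left _ _ hp,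
      Nat.div_eq_of_lt ha, Nat.div_eq_of_lt hc, zero_add, zero_add]
  have h3 := Nat.mod_add_div ((a + 2 ^ k * b) ^^^ (c + 2 ^ k * d)) (2 ^ k)
  rw [h1, h2] at h3
  exact h3.symm

lemma xor_nibble {a a' b b' : ℕ} (ha : a < 16) (ha' : a' < 16) :
    Nat.xor (a + 16 * b) (a' + 16 * b') = Nat.xor a a' + 16 * Nat.xor b b' :=
  xor_split (k := 4) ha ha'

lemma enc_add (v w : V5) : enc (v + w) = Nat.xor (enc v) (enc w) := by
  unfold enc
  rw [xor_nibble (toNat_lt _) (toNat_lt _), xor_nibble (toNat_lt _) (toNat_lt _),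
    xor_nibble (toNat_lt _) (toNat_lt _), xor_nibble (toNat_lt _) (toNat_lt _)]
  simp only [Pi.add_apply, toNat_add]

lemma toNat_zero : (0 : F16).toNat = 0 := rfl
lemma toNat_one : (1 : F16).toNat = 1 := rfl

lemma enc_zero : enc 0 = 0 := rfl

/-- bits of a number -/
def bt (n l : ℕ) : ℕ := n / 2 ^ l % 2

lemma bt_le (n l : ℕ) : bt n l ≤ 1 := by
  have : bt n l < 2 := Nat.mod_lt _ (by norm_num)
  omega

lemma bt_xor (n m l : ℕ) : bt (Nat.xor n m) l = (bt n l + bt m l) % 2 := by
  unfold bt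
  have h1 : Nat.xor n m / 2 ^ l = (n / 2 ^ l) ^^^ (m / 2 ^ l) := Nat.xor_div_two_pow
  rw [h1]
  have h2 : ((n / 2 ^ l) ^^^ (m / 2 ^ l)) % 2 ^ 1 = (n / 2 ^ l % 2 ^ 1) ^^^ (m / 2 ^ l % 2 ^ 1) :=
    Nat.xor_mod_two_pow
  rw [pow_one] at h2
  rw [h2]
  rcases Nat.mod_two_eq_zero_or_one (n / 2 ^ l) with h | h <;>
  rcases Nat.mod_two_eq_zero_or_one (m / 2 ^ l) with h' | h' <;> rw [h, h'] <;> rfl

/-- spread a 20 bit number: bit `l` goes to bit `5 l` -/
def sp (n : ℕ) : ℕ := Sd (bt n) 20

lemma Sd_xor : ∀ {n : ℕ} {b c : ℕ → ℕ}, (∀ l, b l ≤ 1) → (∀ l, c l ≤ 1) →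
    Sd (fun l => (b l + c l) % 2) n = Nat.xor (Sd b n) (Sd c n) := by
  intro n
  induction n with
  | zero => intro b c _ _; simp only [Sd, Finset.range_zero, Finset.sum_empty]; rfl
  | succ n ih =>
    intro b c hb hc
    rw [Sd_front, Sd_front b, Sd_front c]
    have h1 := ih (b := fun m => b (m + 1)) (c := fun m => c (m + 1)) (fun l => hb _)
      (fun l => hc _)
    rw [h1]
    have hb0 := hb 0
    have hc0 := hc 0
    have h2 : Nat.xor (b 0 + 32 * Sd (fun m => b (m + 1)) n) (c 0 + 32 * Sd (fun m => c (m + 1)) n)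
      = (b 0 ^^^ c 0) + 32 * (Sd (fun m => b (m + 1)) n ^^^ Sd (fun m => c (m + 1)) n) :=
      xor_split (k := 5) (by omega) (by omega)
    rw [h2]
    have h3 : (b 0 + c 0) % 2 = b 0 ^^^ c 0 := by
      have : ∀ x ≤ 1, ∀ y ≤ 1, (x + y) % 2 = x ^^^ y := by decide
      exact this _ hb0 _ hc0
    rw [h3]
    rfl

lemma sp_xor (n m : ℕ) : sp (Nat.xor n m) = Nat.xor (sp n) (sp m) := by
  unfold sp
  rw [← Sd_xor (bt_le n) (bt_le m)]
  congr 1
  funext l
  exact bt_xor n m l

lemma sp_inj {n m : ℕ} (hn : n < 2 ^ 20) (hm : m < 2 ^ 20) (h : sp n = sp m) : n = m := by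
  have h1 : ∀ l < 20, bt n l = bt m l := by
    intro l hl
    have h2 := Sd_digit (n := 20) (t := l) (c := bt n) (fun s _ => by have := bt_le n s; omega) hl
    have h3 := Sd_digit (n := 20) (t := l) (c := bt m) (fun s _ => by have := bt_le m s; omega) hl
    rw [← h2, ← h3]
    unfold sp at h
    rw [h]
  apply Nat.eq_of_testBit_eq
  intro l
  rcases Nat.lt_or_ge l 20 with hl | hl
  · have h2 := h1 l hl
    unfold bt at h2
    rw [Nat.testBit_eq_decide_div_mod_eq, Nat.testBit_eq_decide_div_mod_eq, h2]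
  · rw [Nat.testBit_lt_two_pow (lt_of_lt_of_le hn (Nat.pow_le_pow_right (by norm_num) hl)),
      Nat.testBit_lt_two_pow (lt_of_lt_of_le hm (Nat.pow_le_pow_right (by norm_num) hl))]

/-- the packed form of a vector -/
def pk (v : V5) : ℕ := sp (enc v)

lemma pk_inj {v w : V5} (h : pk v = pk w) : v = w := enc_inj (sp_inj (enc_lt v) (enc_lt w) h)

lemma pk_add (v w : V5) : pk (v + w) = Nat.xor (pk v) (pk w) := by
  unfold pk
  rw [enc_add, sp_xor]

lemma pk_zero : pk 0 = 0 := rfl

/-- `A` is a packed bit matrix -/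
def WF (A : ℕ) : Prop := ∃ a : ℕ → ℕ, (∀ m, 400 ≤ m → a m = 0) ∧ (∀ m, a m ≤ 1) ∧ A = Sd a 400

/-- check that `A` is a packed bit matrix -/
def wfOK (A : ℕ) : Bool :=
  Nat.beq (Nat.land A
    0x8421084210842108421084210842108421084210842108421084210842108421084210842108421084210842108421084210842108421084210842108421084210842108421084210842108421084210842108421084210842108421084210842108421084210842108421084210842108421084210842108421084210842108421084210842108421084210842108421084210842108421084210842108421084210842108421084210842108421084210842108421084210842108421084210842108421084210842108421084210842108421084210842108421084210842108421084210842108421084210842108421084210842108421) A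

lemma wfmask_eq : mk 5 0 400 =
    0x8421084210842108421084210842108421084210842108421084210842108421084210842108421084210842108421084210842108421084210842108421084210842108421084210842108421084210842108421084210842108421084210842108421084210842108421084210842108421084210842108421084210842108421084210842108421084210842108421084210842108421084210842108421084210842108421084210842108421084210842108421084210842108421084210842108421084210842108421084210842108421084210842108421084210842108421084210842108421084210842108421084210842108421 := by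
  unfold mk
  decide +kernel

lemma wfOK_sound {A : ℕ} (h : wfOK A = true) : WF A := by
  have h1 : A &&& mk 5 0 400 = A := by
    rw [wfmask_eq]
    exact Nat.eq_of_beq_eq_true h
  refine ⟨fun m => if m < 400 then A / 2 ^ (5 * m + 0) % 2 else 0, ?_, ?_, ?_⟩
  · intro m hm
    beta_reduce
    rw [if_neg (by omega)]
  · intro m
    beta_reduce
    split_ifs
    · have : A / 2 ^ (5 * m + 0) % 2 < 2 := Nat.mod_lt _ (by norm_num)
      omega
    · omega
  · conv_lhs => rw [← h1, and_mk (by norm_num)]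
    unfold Sd
    apply Finset.sum_congr rfl
    intro m hm
    rw [Finset.mem_range] at hm
    beta_reduce
    rw [if_pos hm]
    congr 1
    rw [add_zero, pow_mul]
    norm_num

/-- basis over the prime field -/
def bv (k : ℕ) : V5 := fun i => if (i : ℕ) = k / 4 then F16.ofNat (2 ^ (k % 4)) else 0

/-- `A` represents the matrix `M` -/
def RepM (A : ℕ) (M : M5) : Prop := WF A ∧ ∀ k < 20, apm A (pk (bv k)) = pk (M *ᵥ bv k)

lemma res_xor (a : ℕ → ℕ) (n m j : ℕ) :
    res a (bt (Nat.xor n m)) j = (res a (bt n) j + res a (bt m) j) % 2 := by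
  have h1 : ∑ l ∈ Finset.range 20, a (20 * (19 - j) + 19 - l) * bt (Nat.xor n m) l ≡
      ∑ l ∈ Finset.range 20, (a (20 * (19 - j) + 19 - l) * bt n l +
        a (20 * (19 - j) + 19 - l) * bt m l) [MOD 2] := by
    apply sum_modEq
    intro i _
    rw [bt_xor, ← mul_add]
    exact (Nat.mod_modEq _ 2).mul_left _
  rw [Finset.sum_add_distrib] at h1
  exact h1.trans (Nat.add_mod _ _ _)

lemma apm_xor {A : ℕ} (hA : WF A) (n m : ℕ) :
    apm A (sp (Nat.xor n m)) = Nat.xor (apm A (sp n)) (apm A (sp m)) := by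
  obtain ⟨a, ha0, ha, hAa⟩ := hA
  have e1 := apm_eq ha0 ha (bt_le (Nat.xor n m))
  have e2 := apm_eq ha0 ha (bt_le n)
  have e3 := apm_eq ha0 ha (bt_le m)
  rw [← hAa] at e1 e2 e3
  unfold sp
  rw [e1, e2, e3]
  have hle : ∀ v j, res a v j ≤ 1 := by
    intro v j
    have := res_lt a v j
    omega
  rw [← Sd_xor (hle _) (hle _)]
  have h1 : res a (bt (Nat.xor n m)) = fun l => (res a (bt n) l + res a (bt m) l) % 2 :=
    funext (fun j => res_xor a n m j)
  rw [h1]

lemma apm_add {A : ℕ} (hA : WF A) (v w : V5) :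
    apm A (pk (v + w)) = Nat.xor (apm A (pk v)) (apm A (pk w)) := by
  have h := apm_xor hA (enc v) (enc w)
  rw [← enc_add] at h
  exact h

lemma apm_zero (A : ℕ) : apm A (pk 0) = 0 := by
  rw [pk_zero, apm_def, Nat.mul_zero, Nat.zero_and, Nat.zero_mod]

lemma F16_bits : ∀ c : F16, c = (if bt c.toNat 0 = 1 then F16.ofNat (2 ^ 0) else 0) +
    ((if bt c.toNat 1 = 1 then F16.ofNat (2 ^ 1) else 0) +
    ((if bt c.toNat 2 = 1 then F16.ofNat (2 ^ 2) else 0) +
    (if bt c.toNat 3 = 1 then F16.ofNat (2 ^ 3) else 0))) := by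
  decide +kernel

/-- a representing number gives the action on all vectors -/
theorem apm_rep {A : ℕ} {M : M5} (h : RepM A M) (v : V5) : apm A (pk v) = pk (M *ᵥ v) := by
  obtain ⟨hA, hk⟩ := h
  have hadd : ∀ v w : V5, apm A (pk v) = pk (M *ᵥ v) → apm A (pk w) = pk (M *ᵥ w) →
      apm A (pk (v + w)) = pk (M *ᵥ (v + w)) := by
    intro v w hv hw
    rw [apm_add hA, hv, hw, Matrix.mulVec_add, pk_add]
  have hzero : apm A (pk 0) = pk (M *ᵥ 0) := by
    rw [apm_zero, Matrix.mulVec_zero, pk_zero]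
  have hbit : ∀ (j : Fin 5) (r : ℕ), r < 4 → ∀ b : Prop, ∀ _ : Decidable b,
      apm A (pk (Pi.single j (if b then F16.ofNat (2 ^ r) else 0))) =
      pk (M *ᵥ Pi.single j (if b then F16.ofNat (2 ^ r) else 0)) := by
    intro j r hr b _
    split_ifs
    · have h1 : (Pi.single j (F16.ofNat (2 ^ r)) : V5) = bv (4 * (j : ℕ) + r) := by
        funext i
        unfold bv
        have h2 : (4 * (j : ℕ) + r) / 4 = j := by omega
        have h3 : (4 * (j : ℕ) + r) % 4 = r := by omega
        rw [h2, h3, Pi.single_apply]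
        by_cases hij : i = j
        · rw [if_pos hij, if_pos (by rw [hij])]
        · rw [if_neg hij, if_neg (fun h => hij (Fin.ext h))]
      rw [h1]
      have hj := j.2
      exact hk _ (by omega)
    · rw [Pi.single_zero]; exact hzero
  have hsingle : ∀ (j : Fin 5) (c : F16),
      apm A (pk (Pi.single j c)) = pk (M *ᵥ Pi.single j c) := by
    intro j c
    rw [F16_bits c, Pi.single_add, Pi.single_add, Pi.single_add]
    exact hadd _ _ (hbit j 0 (by norm_num) _ _) (hadd _ _ (hbit j 1 (by norm_num) _ _)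
      (hadd _ _ (hbit j 2 (by norm_num) _ _) (hbit j 3 (by norm_num) _ _)))
  have hv : v = Pi.single 0 (v 0) + (Pi.single 1 (v 1) + (Pi.single 2 (v 2) +
      (Pi.single 3 (v 3) + Pi.single 4 (v 4)))) := by
    funext i
    fin_cases i <;> simp
  rw [hv]
  exact hadd _ _ (hsingle _ _) (hadd _ _ (hsingle _ _) (hadd _ _ (hsingle _ _)
    (hadd _ _ (hsingle _ _) (hsingle _ _))))

lemma pk_bv : ∀ k < 20, pk (bv k) = 32 ^ k := by decide +kernel

/-- `f k` holds for all `k < n` -/
noncomputable def allB (f : ℕ → Bool) (n : ℕ) : Bool :=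
  @Nat.rec (fun _ => Bool) true (fun k ih => and (f k) ih) n

lemma allB_sound {f : ℕ → Bool} : ∀ {n : ℕ}, allB f n = true → ∀ k < n, f k = true := by
  intro n
  induction n with
  | zero => intro _ k hk; omega
  | succ n ih =>
    intro h k hk
    have h' : and (f n) (allB f n) = true := h
    rw [Bool.and_eq_true] at h'
    rcases Nat.lt_succ_iff_lt_or_eq.1 hk with h1 | h1
    · exact ih h'.2 k h1
    · subst h1; exact h'.1

/-- check that `R` represents the product of the matrices represented by `T` and `S` -/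
noncomputable def compOK (T S R : ℕ) : Bool :=
  and (wfOK R)
    (allB (fun k => Nat.beq (apm R (Nat.pow 32 k)) (apm T (apm S (Nat.pow 32 k)))) 20)

theorem rep_comp {T S R : ℕ} {M N : M5} (hT : RepM T M) (hS : RepM S N)
    (h : compOK T S R = true) : RepM R (M * N) := by
  unfold compOK at h
  rw [Bool.and_eq_true] at h
  obtain ⟨hw, ha⟩ := h
  refine And.intro (wfOK_sound hw) ?_
  intro k hk
  have h1 := Nat.eq_of_beq_eq_true (allB_sound ha k hk)
  have h2 : Nat.pow 32 k = pk (bv k) := (pk_bv k hk).symm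
  rw [h2, apm_rep hS, apm_rep hT, Matrix.mulVec_mulVec] at h1
  exact h1

/-- check of a triple product -/
noncomputable def comp3OK (T S Q R : ℕ) : Bool :=
  and (wfOK R)
    (allB (fun k => Nat.beq (apm R (Nat.pow 32 k)) (apm T (apm S (apm Q (Nat.pow 32 k))))) 20)

theorem rep_comp3 {T S Q R : ℕ} {M N L : M5} (hT : RepM T M) (hS : RepM S N) (hQ : RepM Q L)
    (h : comp3OK T S Q R = true) : RepM R (M * (N * L)) := by
  unfold comp3OK at h
  rw [Bool.and_eq_true] at h
  obtain ⟨hw, ha⟩ := h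
  refine And.intro (wfOK_sound hw) ?_
  intro k hk
  have h1 := Nat.eq_of_beq_eq_true (allB_sound ha k hk)
  have h2 : Nat.pow 32 k = pk (bv k) := (pk_bv k hk).symm
  rw [h2, apm_rep hQ, apm_rep hS, apm_rep hT, Matrix.mulVec_mulVec, Matrix.mulVec_mulVec,
    mul_assoc] at h1
  exact h1

/-- direct check that `A` represents `M` -/
lemma rep_direct {A : ℕ} {M : M5} (h1 : wfOK A = true)
    (h2 : ∀ k < 20, apm A (32 ^ k) = pk (M *ᵥ bv k)) : RepM A M := by
  have h3 := wfOK_sound h1
  exact And.intro h3 (fun k hk => (congrArg (apm A) (pk_bv k hk)).trans (h2 k hk))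

end Pool.Agent.H33.Sol
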