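import Mathlib
import Pool.Agent.H33.Sol.Rep

set_option autoImplicit false

namespace Pool.Agent.H33.Sol

open Matrix Subgroup

/-- companion matrix of `X^5 - ∑ p_k X^k` -/
def comp (p : V5) : M5 :=
  of fun i j => if j = 4 then p i else if (i : ℕ) = (j : ℕ) + 1 then 1 else 0

lemma comp_mulVec (p v : V5) :
    comp p *ᵥ v = ![v 4 * p 0, v 0 + v 4 * p 1, v 1 + v 4 * p 2, v 2 + v 4 * p 3,
      v 3 + v 4 * p 4] := by
  funext i
  fin_cases i <;> simp [comp, Matrix.mulVec, dotProduct, Fin.sum_univ_five, mul_comm]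

lemma comp_single (p : V5) {j : ℕ} (hj : j < 4) :
    comp p *ᵥ Pi.single (⟨j, by omega⟩ : Fin 5) 1 = Pi.single (⟨j + 1, by omega⟩ : Fin 5) 1 := by
  rw [comp_mulVec]
  funext i
  interval_cases j <;> fin_cases i <;> simp

/-- Krylov matrix -/
def kry (u : M5) (e : V5) : M5 := of fun i j => (u ^ (j : ℕ) *ᵥ e) i

lemma kry_mulVec (u : M5) (e v : V5) :
    kry u e *ᵥ v = v 0 • e + (v 1 • (u *ᵥ e) + (v 2 • (u ^ 2 *ᵥ e) + (v 3 • (u ^ 3 *ᵥ e) +
      v 4 • (u ^ 4 *ᵥ e)))) := by
  funext i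
  simp only [kry, Matrix.mulVec, dotProduct, Fin.sum_univ_five, Matrix.of_apply, Pi.add_apply,
    Pi.smul_apply, smul_eq_mul]
  simp only [Fin.val_zero, pow_zero, Matrix.one_apply]
  have h1 : ((1 : Fin 5) : ℕ) = 1 := rfl
  have h2 : ((2 : Fin 5) : ℕ) = 2 := rfl
  have h3 : ((3 : Fin 5) : ℕ) = 3 := rfl
  have h4 : ((4 : Fin 5) : ℕ) = 4 := rfl
  rw [h1, h2, h3, h4, pow_one]
  fin_cases i <;> simp <;> ring

lemma kry_comm {u : M5} {e p : V5} (h : u ^ 5 *ᵥ e = kry u e *ᵥ p) :
    u * kry u e = kry u e * comp p := by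
  apply Matrix.ext_of_mulVec_single
  intro j
  rw [← Matrix.mulVec_mulVec, ← Matrix.mulVec_mulVec]
  have hk : ∀ j : Fin 5, kry u e *ᵥ Pi.single j 1 = u ^ (j : ℕ) *ᵥ e := by
    intro j
    funext i
    rw [Matrix.mulVec_single_one]
    rfl
  have h5 : comp p *ᵥ Pi.single (4 : Fin 5) 1 = p := by
    rw [comp_mulVec]
    funext i
    fin_cases i <;> simp
  by_cases hj : (j : ℕ) < 4
  · have h1 := comp_single p hj
    have h2 : (⟨(j : ℕ), by omega⟩ : Fin 5) = j := rfl
    rw [h2] at h1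
    rw [h1, hk, hk, Matrix.mulVec_mulVec, ← pow_succ']
  · have h1 : j = 4 := by
      apply Fin.ext
      have := j.2
      show (j : ℕ) = 4
      omega
    subst h1
    rw [hk, h5, Matrix.mulVec_mulVec, ← pow_succ', ← h]
    rfl

lemma kry_pow_comm {u : M5} {e p : V5} (h : u ^ 5 *ᵥ e = kry u e *ᵥ p) (n : ℕ) :
    u ^ n * kry u e = kry u e * comp p ^ n := by
  induction n with
  | zero => rw [pow_zero, pow_zero, one_mul, mul_one]
  | succ n ih => rw [pow_succ, pow_succ', mul_assoc, kry_comm h, ← mul_assoc, ih, mul_assoc,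
      ← pow_succ, ← pow_succ']

/-- main criterion -/
theorem order_of_horner {u : G5} {e p : V5} (he : e ≠ 0)
    (h1 : comp p ^ 1025 *ᵥ Pi.single 0 1 = Pi.single 0 1)
    (h2 : comp p ^ 25 *ᵥ Pi.single 0 1 ≠ Pi.single 0 1)
    (h : u.1 ^ 5 *ᵥ e = kry u.1 e *ᵥ p) : orderOf (u ^ 25) = 41 := by
  classical
  set C : M5 := comp p with hC
  -- C ^ 1025 = 1
  have hCk : ∀ k : ℕ, ∀ hk : k < 5, C ^ k *ᵥ Pi.single 0 1 = Pi.single (⟨k, hk⟩ : Fin 5) 1 := by
    intro k
    induction k with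
    | zero => intro _; rw [pow_zero, Matrix.one_mulVec]; rfl
    | succ k ih =>
      intro hk
      rw [pow_succ', ← Matrix.mulVec_mulVec, ih (by omega)]
      exact comp_single p (by omega)
  have hC1 : C ^ 1025 = 1 := by
    apply Matrix.ext_of_mulVec_single
    intro j
    have h3 := hCk j j.2
    have h4 : (⟨(j : ℕ), j.2⟩ : Fin 5) = j := rfl
    rw [h4] at h3
    rw [← h3, Matrix.mulVec_mulVec, ← pow_add, add_comm, pow_add, ← Matrix.mulVec_mulVec, h1,
      Matrix.one_mulVec]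
  have hCu : C * C ^ 1024 = 1 := by rw [← pow_succ']; exact hC1
  have hCu' : C ^ 1024 * C = 1 := by rw [← pow_succ]; exact hC1
  let c : G5 := ⟨C, C ^ 1024, hCu, hCu'⟩
  have hc25 : orderOf (c ^ 25) = 41 := by
    apply orderOf_eq_prime
    · rw [← pow_mul]
      apply Units.ext
      rw [Units.val_pow_eq_pow_val]
      exact hC1
    · intro h3
      apply h2
      have h4 : (c ^ 25).1 = 1 := by rw [h3]; rfl
      rw [Units.val_pow_eq_pow_val] at h4
      show c.1 ^ 25 *ᵥ _ = _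
      rw [h4, Matrix.one_mulVec]
  set L : M5 := kry u.1 e with hL
  have hLe : L *ᵥ Pi.single 0 1 = e := by
    rw [hL, kry_mulVec]
    simp
  -- kernel of L
  let W : Submodule F16 V5 :=
    { carrier := {v | L *ᵥ v = 0}
      add_mem' := by
        intro a b ha hb
        simp only [Set.mem_ofPred_eq] at *
        rw [Matrix.mulVec_add, ha, hb, add_zero]
      zero_mem' := by
        simp only [Set.mem_ofPred_eq]
        rw [Matrix.mulVec_zero]
      smul_mem' := by
        intro a v hv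
        simp only [Set.mem_ofPred_eq] at *
        rw [Matrix.mulVec_smul, hv, smul_zero] }
  have hW : ∀ w ∈ W, (c ^ 25).1 *ᵥ w ∈ W := by
    intro w hw
    have hw' : L *ᵥ w = 0 := hw
    show L *ᵥ ((c ^ 25).1 *ᵥ w) = 0
    rw [Units.val_pow_eq_pow_val, Matrix.mulVec_mulVec]
    show (L * C ^ 25) *ᵥ w = 0
    rw [← kry_pow_comm h 25, ← Matrix.mulVec_mulVec, hw', Matrix.mulVec_zero]
  have hWbot : W = ⊥ := by
    rcases invariant_eq hc25 W hW with h3 | h3
    · exact h3
    · exfalso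
      apply he
      have h4 : (Pi.single 0 1 : V5) ∈ W := by rw [h3]; exact Submodule.mem_top
      rw [← hLe]
      exact h4
  have hinj : Function.Injective L.mulVec := by
    intro v w hvw
    have h3 : v - w ∈ W := by
      show L *ᵥ (v - w) = 0
      rw [Matrix.mulVec_sub]
      exact sub_eq_zero.2 hvw
    rw [hWbot, Submodule.mem_bot] at h3
    exact sub_eq_zero.1 h3
  have hunit : IsUnit L := Matrix.mulVec_injective_iff_isUnit.1 hinj
  have hcancel : ∀ n : ℕ, u.1 ^ n = 1 ↔ C ^ n = 1 := by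
    intro n
    have h3 := kry_pow_comm h n
    constructor
    · intro h4
      rw [h4, one_mul] at h3
      have h5 : L * 1 = L * C ^ n := by rw [mul_one]; exact h3
      exact (hunit.mul_left_cancel h5).symm
    · intro h4
      rw [h4, mul_one] at h3
      have h5 : u.1 ^ n * L = 1 * L := by rw [one_mul]; exact h3
      exact hunit.mul_right_cancel h5
  apply orderOf_eq_prime
  · rw [← pow_mul]
    apply Units.ext
    rw [Units.val_pow_eq_pow_val]
    exact (hcancel _).2 hC1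
  · intro h3
    apply h2
    have h4 : (u ^ 25).1 = 1 := by rw [h3]; rfl
    rw [Units.val_pow_eq_pow_val] at h4
    rw [(hcancel 25).1 h4, Matrix.one_mulVec]

end Pool.Agent.H33.Sol
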