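import Mathlib
import Pool.Agent.H33.Sol.Comp

set_option autoImplicit false

namespace Pool.Agent.H33.Sol

open Matrix Subgroup

/-- the `i`-th matrix of a block of four -/
def subt (A i : ℕ) : ℕ := Nat.mod (Nat.shiftRight A (Nat.mul 2000 i)) (Nat.pow 2 2000)

/-- the `i`-th polynomial -/
def lookP (P i : ℕ) : ℕ := Nat.mod (Nat.shiftRight P (Nat.mul 100 i)) (Nat.pow 2 100)

/-- Horner check that `u^5 e = ∑ p_k u^k e` -/
def horner (f : ℕ → ℕ) (P : ℕ) : Bool :=
  Nat.beq (f (Nat.xor (f (Nat.xor (f (Nat.xor (f (Nat.xor (f 1) (Nat.shiftRight P 80)))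
    (Nat.mod (Nat.shiftRight P 60) 1048576))) (Nat.mod (Nat.shiftRight P 40) 1048576)))
    (Nat.mod (Nat.shiftRight P 20) 1048576))) (Nat.mod P 1048576)

/-- `r` and `l` are the functions of two matrices `R` and `L`: the product `R L` satisfies the
polynomial `P`, and does not commute with `L R` -/
def wordOK (r l : ℕ → ℕ) (P : ℕ) : Bool :=
  and (horner (fun v => r (l v)) P) (not (Nat.beq (r (l (l (r 1)))) (l (r (r (l 1))))))

/-- the check for one pair -/
def pairOK (PT A B c : ℕ) : Bool :=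
  and (Nat.ble (Nat.div c 512) 199)
    (cond (Nat.beq (Nat.mod c 2) 0)
      (wordOK (apm (subt A (Nat.mod (Nat.div c 2) 4))) (apm (subt B (Nat.mod (Nat.div c 8) 4)))
        (lookP PT (Nat.div c 512)))
      (wordOK (fun v => apm (subt A (Nat.mod (Nat.div c 2) 4))
        (apm (subt B (Nat.mod (Nat.div c 8) 4)) (apm (subt A (Nat.mod (Nat.div c 32) 4)) v)))
        (apm (subt B (Nat.mod (Nat.div c 128) 4)))
        (lookP PT (Nat.div c 512))))

/-- the check for one row -/
noncomputable def rowOK (PT A : ℕ) (l : List ℕ) : ℕ → Bool :=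
  @List.rec ℕ (fun _ => ℕ → Bool) (fun _ => true)
    (fun B _ ih C => and (pairOK PT A B (Nat.mod C 131072)) (ih (Nat.div C 131072))) l

/-- the check for several rows -/
noncomputable def rowsOK (PT : ℕ) (TW : List ℕ) (As : List ℕ) : List ℕ → Bool :=
  @List.rec ℕ (fun _ => List ℕ → Bool) (fun _ => true)
    (fun A _ ih Cs => @List.rec ℕ (fun _ => Bool) false
      (fun C Cs' _ => and (rowOK PT A TW C) (ih Cs')) Cs) As

lemma rowOK_sound {PT A : ℕ} : ∀ {l : List ℕ} {C : ℕ}, rowOK PT A l C = true →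
    ∀ B ∈ l, ∃ c, pairOK PT A B c = true := by
  intro l
  induction l with
  | nil => intro C _ B hB; simp at hB
  | cons B0 l ih =>
    intro C h B hB
    have h' : and (pairOK PT A B0 (Nat.mod C 131072)) (rowOK PT A l (Nat.div C 131072)) = true := h
    rw [Bool.and_eq_true] at h'
    obtain ⟨ha, hb⟩ := h'
    rcases List.mem_cons.1 hB with h1 | h1
    · subst h1; exact ⟨_, ha⟩
    · exact ih hb B h1

lemma rowsOK_sound {PT : ℕ} {TW : List ℕ} : ∀ {As Cs : List ℕ}, rowsOK PT TW As Cs = true →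
    ∀ A ∈ As, ∀ B ∈ TW, ∃ c, pairOK PT A B c = true := by
  intro As
  induction As with
  | nil => intro Cs _ A hA; simp at hA
  | cons A0 As ih =>
    intro Cs h A hA
    cases Cs with
    | nil =>
      have h' : false = true := h
      exact absurd h' (by simp)
    | cons C Cs =>
      have h' : and (rowOK PT A0 TW C) (rowsOK PT TW As Cs) = true := h
      rw [Bool.and_eq_true] at h'
      obtain ⟨ha, hb⟩ := h'
      rcases List.mem_cons.1 hA with h1 | h1
      · subst h1; exact rowOK_sound ha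
      · exact ih hb A h1

lemma add_self_V5 (v : V5) : v + v = 0 := by
  funext i
  exact CharTwo.add_self_eq_zero (v i)

/-- the number `P` holds the packed coefficients of `p` -/
def EncP (P : ℕ) (p : V5) : Prop :=
  Nat.mod P 1048576 = pk (Pi.single 0 (p 0)) ∧
  Nat.mod (Nat.shiftRight P 20) 1048576 = pk (Pi.single 0 (p 1)) ∧
  Nat.mod (Nat.shiftRight P 40) 1048576 = pk (Pi.single 0 (p 2)) ∧
  Nat.mod (Nat.shiftRight P 60) 1048576 = pk (Pi.single 0 (p 3)) ∧
  Nat.shiftRight P 80 = pk (Pi.single 0 (p 4))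

lemma pk_e0 : pk (Pi.single 0 1) = 1 := by decide +kernel

lemma single_smul (c : F16) : (Pi.single 0 c : V5) = c • (Pi.single 0 1 : V5) := by
  rw [← Pi.single_smul, smul_eq_mul, mul_one]

/-- the vector computed by Horner's rule -/
lemma horner_vec (u : M5) (p : V5) :
    u *ᵥ (u *ᵥ (u *ᵥ (u *ᵥ (u *ᵥ Pi.single 0 1 + Pi.single 0 (p 4)) + Pi.single 0 (p 3)) +
      Pi.single 0 (p 2)) + Pi.single 0 (p 1)) + Pi.single 0 (p 0) =
    u ^ 5 *ᵥ Pi.single 0 1 + kry u (Pi.single 0 1) *ᵥ p := by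
  rw [kry_mulVec, single_smul (p 0), single_smul (p 1), single_smul (p 2), single_smul (p 3),
    single_smul (p 4)]
  set e : V5 := Pi.single 0 1 with he
  simp only [Matrix.mulVec_add, Matrix.mulVec_smul, Matrix.mulVec_mulVec]
  have h4 : u * (u * (u * (u * u))) = u ^ 5 := by
    simp only [pow_succ', pow_zero, mul_one]
  have h5 : u * (u * (u * u)) = u ^ 4 := by
    simp only [pow_succ', pow_zero, mul_one]
  have h6 : u * (u * u) = u ^ 3 := by
    simp only [pow_succ', pow_zero, mul_one]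
  have h7 : u * u = u ^ 2 := by
    simp only [pow_succ', pow_zero, mul_one]
  rw [h4, h5, h6, h7]
  abel

lemma horner_val {f : ℕ → ℕ} {u : M5} (hf : ∀ v : V5, f (pk v) = pk (u *ᵥ v)) {P : ℕ}
    {p : V5} (hP : EncP P p) : horner f P = Nat.beq
      (pk (u *ᵥ (u *ᵥ (u *ᵥ (u *ᵥ (u *ᵥ Pi.single 0 1 + Pi.single 0 (p 4)) + Pi.single 0 (p 3)) +
      Pi.single 0 (p 2)) + Pi.single 0 (p 1)))) (pk (Pi.single 0 (p 0))) := by
  obtain ⟨e0, e1, e2, e3, e4⟩ := hP
  have h2 : f 1 = pk (u *ᵥ Pi.single 0 1) := by rw [← pk_e0]; exact hf _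
  unfold horner
  rw [e0, e1, e2, e3, e4, h2, ← pk_add, hf, ← pk_add, hf, ← pk_add, hf, ← pk_add, hf]

lemma horner_iff {f : ℕ → ℕ} {u : M5} (hf : ∀ v : V5, f (pk v) = pk (u *ᵥ v)) {P : ℕ}
    {p : V5} (hP : EncP P p) : horner f P = true ↔
      u ^ 5 *ᵥ Pi.single 0 1 = kry u (Pi.single 0 1) *ᵥ p := by
  rw [horner_val hf hP]
  have hv := horner_vec u p
  constructor
  · intro h
    have h1 := pk_inj (Nat.eq_of_beq_eq_true h)
    rw [h1, add_self_V5] at hv
    have h2 := congrArg (fun v => v + kry u (Pi.single 0 1) *ᵥ p) hv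
    simp only [add_assoc, add_self_V5, add_zero, zero_add] at h2
    exact h2.symm
  · intro h
    rw [h, add_self_V5] at hv
    have h2 := congrArg (fun v => v + Pi.single 0 (p 0)) hv
    simp only [add_assoc, add_self_V5, add_zero, zero_add] at h2
    have h3 : u *ᵥ (u *ᵥ (u *ᵥ (u *ᵥ (u *ᵥ Pi.single 0 1 + Pi.single 0 (p 4)) +
      Pi.single 0 (p 3)) + Pi.single 0 (p 2)) + Pi.single 0 (p 1)) = Pi.single 0 (p 0) := by
      exact h2
    rw [h3]
    exact Nat.beq_refl _

/-- the polynomial `P` gives elements of order divisible by 41 -/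
def GoodPoly (P : ℕ) : Prop := ∃ p : V5, EncP P p ∧
  comp p ^ 1025 *ᵥ Pi.single 0 1 = Pi.single 0 1 ∧ comp p ^ 25 *ᵥ Pi.single 0 1 ≠ Pi.single 0 1

lemma e0_ne : (Pi.single 0 1 : V5) ≠ 0 := by
  intro h
  have := congrFun h 0
  simp at this

/-- the function `f` computes the action of `R` on packed vectors -/
def Acts (f : ℕ → ℕ) (R : G5) : Prop := ∀ v : V5, f (pk v) = pk (R.1 *ᵥ v)

lemma Acts.comp {f h : ℕ → ℕ} {R L : G5} (hf : Acts f R) (hh : Acts h L) :
    Acts (fun v => f (h v)) (R * L) := by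
  intro v
  beta_reduce
  rw [hh, hf, Matrix.mulVec_mulVec, Units.val_mul]

lemma wordOK_sound {r l : ℕ → ℕ} {R L : G5} (hr : Acts r R) (hl : Acts l L) {P : ℕ}
    (hP : GoodPoly P) (h : wordOK r l P = true) : orderOf ((R * L) ^ 25) = 41 ∧
      (R * L) * (L * R) ≠ (L * R) * (R * L) := by
  unfold wordOK at h
  rw [Bool.and_eq_true] at h
  obtain ⟨h1, h2⟩ := h
  obtain ⟨p, hp, hp1, hp2⟩ := hP
  constructor
  · have hcomp : ∀ v : V5, (fun v => r (l v)) (pk v) = pk ((R * L).1 *ᵥ v) := hr.comp hl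
    have h3 := (horner_iff (f := fun v => r (l v)) (u := (R * L).1) hcomp hp).1 h1
    exact order_of_horner e0_ne hp1 hp2 h3
  · intro hcomm
    rw [Bool.not_eq_true', ← Bool.not_eq_true] at h2
    apply h2
    have e1 : r (l (l (r 1))) = pk ((R * L * (L * R)).1 *ᵥ Pi.single 0 1) := by
      have m1 : (R * L * (L * R)).1 = R.1 * L.1 * L.1 * R.1 := by
        rw [Units.val_mul, Units.val_mul, Units.val_mul, ← mul_assoc]
      rw [← pk_e0, hr, hl, hl, hr, Matrix.mulVec_mulVec, Matrix.mulVec_mulVec,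
        Matrix.mulVec_mulVec, m1]
    have e2 : l (r (r (l 1))) = pk ((L * R * (R * L)).1 *ᵥ Pi.single 0 1) := by
      have m2 : (L * R * (R * L)).1 = L.1 * R.1 * R.1 * L.1 := by
        rw [Units.val_mul, Units.val_mul, Units.val_mul, ← mul_assoc]
      rw [← pk_e0, hl, hr, hr, hl, Matrix.mulVec_mulVec, Matrix.mulVec_mulVec,
        Matrix.mulVec_mulVec, m2]
    rw [e1, e2, hcomm]
    exact Nat.beq_refl _

/-- the non-solvability criterion -/
lemma not_solvable_aux {K : Subgroup G5} {R L : G5} (hR : R ∈ K) (hL : L ∈ K)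
    (h1 : orderOf ((R * L) ^ 25) = 41) (h2 : (R * L) * (L * R) ≠ (L * R) * (R * L)) :
    ¬ Group.IsSolvable K := by
  intro hK
  apply h2
  set t := (R * L) ^ 25 with ht
  have htK : t ∈ K := K.pow_mem (K.mul_mem hR hL) _
  have h3 := sol41 h1 K hK htK L hL
  -- t is a power of its conjugate
  have hord : orderOf (L * t * L⁻¹) = 41 := by
    rw [← h1]
    exact MulEquiv.orderOf_eq (MulAut.conj L) t
  have h4 : zpowers (L * t * L⁻¹) = zpowers t := by
    apply Subgroup.eq_of_le_of_card_ge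
    · rw [Subgroup.zpowers_le]; exact h3
    · rw [Nat.card_zpowers, Nat.card_zpowers, hord, h1]
  have h5 : t ∈ zpowers (L * t * L⁻¹) := by rw [h4]; exact mem_zpowers t
  obtain ⟨k, hk⟩ := h5
  have hk' : (L * t * L⁻¹) ^ k = t := hk
  have h6 : Commute (L * R) t := by
    have h7 : Commute (R * L) t := (Commute.refl (R * L)).pow_right 25
    have h8 : Commute (L * (R * L) * L⁻¹) (L * t * L⁻¹) := by
      show L * (R * L) * L⁻¹ * (L * t * L⁻¹) = L * t * L⁻¹ * (L * (R * L) * L⁻¹)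
      have h9 : (R * L) * t = t * (R * L) := h7.eq
      calc L * (R * L) * L⁻¹ * (L * t * L⁻¹) = L * ((R * L) * t) * L⁻¹ := by group
        _ = L * (t * (R * L)) * L⁻¹ := by rw [h9]
        _ = _ := by group
    have h10 : L * (R * L) * L⁻¹ = L * R := by group
    rw [h10] at h8
    rw [← hk']
    exact h8.zpow_right k
  have h7 : Commute (R * L) t := (Commute.refl (R * L)).pow_right 25
  exact (cent_comm h1 h7 h6).eq

/-- the block `A` represents the first four powers of `X` -/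
def Blk (A : ℕ) (X : G5) : Prop := ∀ i < 4, RepM (subt A i) (X ^ (i + 1)).1

lemma Blk.acts {A : ℕ} {X : G5} (h : Blk A X) (n : ℕ) :
    Acts (apm (subt A (Nat.mod n 4))) (X ^ (n % 4 + 1)) := by
  intro v
  exact apm_rep (h (n % 4) (Nat.mod_lt _ (by norm_num))) v

/-- a successful pair check gives non-solvability -/
theorem pair_not_solvable {PT A B c : ℕ} {Z Y : G5} (hA : Blk A Z) (hB : Blk B Y)
    (hPT : ∀ k < 200, GoodPoly (lookP PT k)) (h : pairOK PT A B c = true)
    {K : Subgroup G5} (hZ : Z ∈ K) (hY : Y ∈ K) : ¬ Group.IsSolvable K := by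
  unfold pairOK at h
  rw [Bool.and_eq_true] at h
  obtain ⟨h1, h2⟩ := h
  have hk : Nat.div c 512 < 200 := by
    have := Nat.le_of_ble_eq_true h1
    omega
  have hgood := hPT _ hk
  cases hc : Nat.beq (Nat.mod c 2) 0 with
  | true =>
    rw [hc] at h2
    obtain ⟨h3, h4⟩ := wordOK_sound (hA.acts (Nat.div c 2)) (hB.acts (Nat.div c 8)) hgood h2
    exact not_solvable_aux (K.pow_mem hZ _) (K.pow_mem hY _) h3 h4
  | false =>
    rw [hc] at h2
    have hR : Acts (fun v => apm (subt A (Nat.mod (Nat.div c 2) 4))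
        (apm (subt B (Nat.mod (Nat.div c 8) 4)) (apm (subt A (Nat.mod (Nat.div c 32) 4)) v)))
        (Z ^ (Nat.div c 2 % 4 + 1) * (Y ^ (Nat.div c 8 % 4 + 1) *
          Z ^ (Nat.div c 32 % 4 + 1))) :=
      (hA.acts (Nat.div c 2)).comp ((hB.acts (Nat.div c 8)).comp (hA.acts (Nat.div c 32)))
    obtain ⟨h3, h4⟩ := wordOK_sound hR (hB.acts (Nat.div c 128)) hgood h2
    refine not_solvable_aux (R := Z ^ (Nat.div c 2 % 4 + 1) * (Y ^ (Nat.div c 8 % 4 + 1) *
          Z ^ (Nat.div c 32 % 4 + 1))) ?_ (K.pow_mem hY _) h3 h4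
    exact K.mul_mem (K.pow_mem hZ _) (K.mul_mem (K.pow_mem hY _) (K.pow_mem hZ _))

end Pool.Agent.H33.Sol
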