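import Mathlib
import Pool.Agent.H33.Sol.Check

set_option autoImplicit false

namespace Pool.Agent.H33.Sol

open Matrix Subgroup

/-- five times -/
def ap5 (A v : ℕ) : ℕ := apm A (apm A (apm A (apm A (apm A v))))

/-- twenty-five times -/
def ap25 (A v : ℕ) : ℕ := ap5 A (ap5 A (ap5 A (ap5 A (ap5 A v))))

/-- iteration with forced evaluation -/
noncomputable def rpf (f : ℕ → ℕ) (n : ℕ) : ℕ → ℕ :=
  @Nat.rec (fun _ => ℕ → ℕ) (fun v => v)
    (fun _ ih v => @Nat.rec (fun _ => ℕ) (ih (f 0)) (fun m _ => ih (f (Nat.succ m))) v) n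

lemma rpf_eq (f : ℕ → ℕ) : ∀ (n v : ℕ), rpf f n v = f^[n] v := by
  intro n
  induction n with
  | zero => intro v; rfl
  | succ n ih =>
    intro v
    have h1 : rpf f (n + 1) v = rpf f n (f v) := by
      cases v <;> rfl
    rw [h1, ih, Function.iterate_succ_apply]

lemma iter_acts {f : ℕ → ℕ} {M : M5} (hf : ∀ v : V5, f (pk v) = pk (M *ᵥ v)) :
    ∀ (n : ℕ) (v : V5), f^[n] (pk v) = pk (M ^ n *ᵥ v) := by
  intro n
  induction n with
  | zero => intro v; rw [pow_zero, Matrix.one_mulVec]; rfl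
  | succ n ih =>
    intro v
    rw [Function.iterate_succ_apply, hf, ih, Matrix.mulVec_mulVec, ← pow_succ]

lemma ap5_eq (A : ℕ) : ap5 A = (apm A)^[5] := rfl

lemma ap25_eq (A : ℕ) : ap25 A = (apm A)^[25] := by
  have h1 : ap25 A = (ap5 A)^[5] := rfl
  rw [h1, ap5_eq, ← Function.iterate_mul]

lemma rp25_eq (A n v : ℕ) : rpf (ap25 A) n v = (apm A)^[25 * n] v := by
  rw [rpf_eq, ap25_eq, ← Function.iterate_mul]

/-- unpack a nibble -/
def unn (s : ℕ) : F16 :=
  F16.ofNat (s % 2 + 2 * (s / 32 % 2) + 4 * (s / 1024 % 2) + 8 * (s / 32768 % 2))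

/-- unpack a vector -/
def decV (P : ℕ) : V5 := fun j => unn (P / 2 ^ (20 * (j : ℕ)) % 1048576)

/-- check that `P` is the packed form of `decV P` -/
def encOK (P : ℕ) : Bool :=
  and (Nat.beq (Nat.mod P 1048576) (pk (Pi.single 0 (decV P 0))))
  (and (Nat.beq (Nat.mod (Nat.shiftRight P 20) 1048576) (pk (Pi.single 0 (decV P 1))))
  (and (Nat.beq (Nat.mod (Nat.shiftRight P 40) 1048576) (pk (Pi.single 0 (decV P 2))))
  (and (Nat.beq (Nat.mod (Nat.shiftRight P 60) 1048576) (pk (Pi.single 0 (decV P 3))))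
  (Nat.beq (Nat.shiftRight P 80) (pk (Pi.single 0 (decV P 4)))))))

lemma encOK_sound {P : ℕ} (h : encOK P = true) : EncP P (decV P) := by
  unfold encOK at h
  rw [Bool.and_eq_true, Bool.and_eq_true, Bool.and_eq_true, Bool.and_eq_true] at h
  obtain ⟨h0, h1, h2, h3, h4⟩ := h
  exact ⟨Nat.eq_of_beq_eq_true h0, Nat.eq_of_beq_eq_true h1, Nat.eq_of_beq_eq_true h2,
    Nat.eq_of_beq_eq_true h3, Nat.eq_of_beq_eq_true h4⟩

/-- `A` is the packed companion matrix of the polynomial `P`; `T` is the packed scalar matrix -/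
noncomputable def compaOK (T A P : ℕ) : Bool :=
  and (wfOK A)
  (and (allB (fun i => Nat.beq (apm A (Nat.pow 32 i)) (Nat.pow 32 (Nat.add i 4))) 16)
  (and (Nat.beq (apm A (Nat.pow 32 16)) (pk (decV P)))
  (and (Nat.beq (apm A (Nat.pow 32 17)) (apm T (pk (decV P))))
  (and (Nat.beq (apm A (Nat.pow 32 18)) (apm T (apm T (pk (decV P)))))
  (Nat.beq (apm A (Nat.pow 32 19)) (apm T (apm T (apm T (pk (decV P))))))))))

lemma bv_comp (p : V5) : ∀ i < 16, comp p *ᵥ bv i = bv (i + 4) := by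
  intro i hi
  rw [comp_mulVec]
  have h4 : bv i 4 = 0 := by
    unfold bv
    rw [if_neg]
    show ¬ (4 = i / 4)
    omega
  rw [h4]
  funext j
  unfold bv
  have hd : (i + 4) / 4 = i / 4 + 1 := by omega
  have hm : (i + 4) % 4 = i % 4 := by omega
  rw [hd, hm]
  have hq : i / 4 < 4 := by omega
  generalize i / 4 = q at hq ⊢
  interval_cases q <;> fin_cases j <;> simp

lemma bv_top (p : V5) : ∀ r < 4, comp p *ᵥ bv (16 + r) = F16.ofNat (2 ^ r) • p := by
  intro r hr
  rw [comp_mulVec]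
  have hd : (16 + r) / 4 = 4 := by omega
  have hm : (16 + r) % 4 = r := by omega
  have h4 : bv (16 + r) 4 = F16.ofNat (2 ^ r) := by
    unfold bv
    rw [hd, hm, if_pos (show ((4 : Fin 5) : ℕ) = 4 from rfl)]
  have h0 : ∀ j : Fin 5, (j : ℕ) ≠ 4 → bv (16 + r) j = 0 := by
    intro j hj
    unfold bv
    rw [hd, if_neg hj]
  rw [h4, h0 0 (by decide), h0 1 (by decide), h0 2 (by decide), h0 3 (by decide)]
  funext j
  fin_cases j <;> simp

lemma ofNat_pow : F16.ofNat (2 ^ 1) = F16.ofNat 2 ∧ F16.ofNat (2 ^ 2) = F16.ofNat 2 * F16.ofNat 2 ∧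
    F16.ofNat (2 ^ 3) = F16.ofNat 2 * (F16.ofNat 2 * F16.ofNat 2) ∧ F16.ofNat (2 ^ 0) = 1 := by
  decide +kernel

lemma compaOK_sound {T A P : ℕ} (hT : RepM T (F16.ofNat 2 • (1 : M5)))
    (h : compaOK T A P = true) : RepM A (comp (decV P)) := by
  unfold compaOK at h
  rw [Bool.and_eq_true, Bool.and_eq_true, Bool.and_eq_true, Bool.and_eq_true,
    Bool.and_eq_true] at h
  obtain ⟨h0, h1, h2, h3, h4, h5⟩ := h
  have e2 := Nat.eq_of_beq_eq_true h2
  have e3 := Nat.eq_of_beq_eq_true h3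
  have e4 := Nat.eq_of_beq_eq_true h4
  have e5 := Nat.eq_of_beq_eq_true h5
  have hsm : ∀ v : V5, (F16.ofNat 2 • (1 : M5)) *ᵥ v = F16.ofNat 2 • v := by
    intro v
    rw [Matrix.smul_mulVec, Matrix.one_mulVec]
  rw [apm_rep hT, hsm] at e3
  rw [apm_rep hT, hsm, apm_rep hT, hsm] at e4
  rw [apm_rep hT, hsm, apm_rep hT, hsm, apm_rep hT, hsm] at e5
  obtain ⟨o1, o2, o3, o0⟩ := ofNat_pow
  refine And.intro (wfOK_sound h0) ?_
  intro k hk
  have hpk : pk (bv k) = Nat.pow 32 k := pk_bv k hk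
  rcases Nat.lt_or_ge k 16 with hk16 | hk16
  · have e1 := Nat.eq_of_beq_eq_true (allB_sound h1 k hk16)
    have hpk4 : Nat.pow 32 (Nat.add k 4) = pk (bv (k + 4)) := (pk_bv (k + 4) (by omega)).symm
    rw [hpk, e1, hpk4, bv_comp _ k hk16]
  · obtain ⟨r, rfl⟩ := Nat.exists_eq_add_of_le hk16
    have hr : r < 4 := by omega
    rw [hpk, bv_top _ r hr]
    interval_cases r
    · rw [o0, one_smul]; exact e2
    · rw [o1]; exact e3
    · rw [o2, ← smul_smul]; exact e4
    · rw [o3, ← smul_smul, ← smul_smul]; exact e5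

/-- check of one polynomial -/
noncomputable def polyOK (T A P : ℕ) : Bool :=
  and (encOK P) (and (compaOK T A P) (and (not (Nat.beq (ap25 A 1) 1))
    (Nat.beq (rpf (ap25 A) 41 1) 1)))

lemma polyOK_sound {T A P : ℕ} (hT : RepM T (F16.ofNat 2 • (1 : M5)))
    (h : polyOK T A P = true) : GoodPoly P := by
  unfold polyOK at h
  rw [Bool.and_eq_true, Bool.and_eq_true, Bool.and_eq_true] at h
  obtain ⟨h0, h1, h2, h3⟩ := h
  have hA := compaOK_sound hT h1
  have hit := iter_acts (f := apm A) (M := comp (decV P)) (apm_rep hA)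
  refine ⟨decV P, encOK_sound h0, ?_, ?_⟩
  · apply pk_inj
    have e3 := Nat.eq_of_beq_eq_true h3
    rw [rp25_eq, ← pk_e0] at e3
    have h5 := hit (25 * 41) (Pi.single 0 1)
    rw [e3] at h5
    exact h5.symm
  · intro h4
    rw [Bool.not_eq_true', ← Bool.not_eq_true] at h2
    apply h2
    have h5 := hit 25 (Pi.single 0 1)
    rw [h4, pk_e0] at h5
    rw [ap25_eq, h5]
    exact Nat.beq_refl 1

/-- check of all polynomials -/
noncomputable def polysOK (T PT : ℕ) (l : List ℕ) : ℕ → Bool :=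
  @List.rec ℕ (fun _ => ℕ → Bool) (fun _ => true)
    (fun A _ ih k => and (polyOK T A (lookP PT k)) (ih (Nat.succ k))) l

lemma polysOK_sound {T PT : ℕ} (hT : RepM T (F16.ofNat 2 • (1 : M5))) :
    ∀ {l : List ℕ} {k : ℕ}, polysOK T PT l k = true →
    ∀ i < l.length, GoodPoly (lookP PT (k + i)) := by
  intro l
  induction l with
  | nil => intro k _ i hi; simp at hi
  | cons A l ih =>
    intro k h i hi
    have h' : and (polyOK T A (lookP PT k)) (polysOK T PT l (Nat.succ k)) = true := h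
    rw [Bool.and_eq_true] at h'
    obtain ⟨ha, hb⟩ := h'
    rcases i with _ | i
    · exact polyOK_sound hT ha
    · have h1 := ih hb i (by simpa using hi)
      have h2 : Nat.succ k + i = k + (i + 1) := by omega
      rw [h2] at h1
      exact h1

end Pool.Agent.H33.Sol
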