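import Mathlib
import Pool.Agent.H33.Sol.Poly
import Pool.Agent.H33.Sol.Data

set_option autoImplicit false
set_option maxRecDepth 100000

namespace Pool.Agent.H33.Sol

open Matrix Subgroup

/-- matrix with packed entries -/
def matOf (R : ℕ) : M5 := of fun i j => F16.ofNat (R / 16 ^ (5 * (i : ℕ) + (j : ℕ)) % 16)

/-- the matrix `ω` -/
def wM : M5 := matOf wRows
/-- the matrix `φ` -/
def fM : M5 := matOf fRows

lemma wM_mul : wM * wMᴴ = 1 := by
  ext i j
  show (∑ k, wM i k * star (wM j k) : F16) = if i = j then 1 else 0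
  revert i j
  decide +kernel

lemma wM_mul' : wMᴴ * wM = 1 := by
  ext i j
  show (∑ k, star (wM k i) * wM k j : F16) = if i = j then 1 else 0
  revert i j
  decide +kernel

lemma fM_mul : fM * fMᴴ = 1 := by
  ext i j
  show (∑ k, fM i k * star (fM j k) : F16) = if i = j then 1 else 0
  revert i j
  decide +kernel

lemma fM_mul' : fMᴴ * fM = 1 := by
  ext i j
  show (∑ k, star (fM k i) * fM k j : F16) = if i = j then 1 else 0
  revert i j
  decide +kernel

/-- `ω` -/
def wG : G5 := ⟨wM, wMᴴ, wM_mul, wM_mul'⟩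
/-- `φ` -/
def fG : G5 := ⟨fM, fMᴴ, fM_mul, fM_mul'⟩

lemma wG_val : wG.1 = wM := rfl
lemma fG_val : fG.1 = fM := rfl

/-- the cyclic shift -/
def gM : M5 := of fun i j => if i = j + 1 then 1 else 0
/-- the inverse of the cyclic shift -/
def gM' : M5 := of fun i j => if j = i + 1 then 1 else 0

lemma gM_mulVec (v : V5) : gM *ᵥ v = ![v 4, v 0, v 1, v 2, v 3] := by
  funext i
  fin_cases i <;> simp [gM, Matrix.mulVec, dotProduct, Fin.sum_univ_five]

lemma gM'_mulVec (v : V5) : gM' *ᵥ v = ![v 1, v 2, v 3, v 4, v 0] := by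
  funext i
  fin_cases i <;> simp [gM', Matrix.mulVec, dotProduct]

lemma gM_mul : gM * gM' = 1 := by
  apply Matrix.ext_of_mulVec_single
  intro i
  rw [← Matrix.mulVec_mulVec, gM'_mulVec, gM_mulVec, Matrix.one_mulVec]
  funext j
  fin_cases j <;> simp

lemma gM'_mul : gM' * gM = 1 := by
  apply Matrix.ext_of_mulVec_single
  intro i
  rw [← Matrix.mulVec_mulVec, gM_mulVec, gM'_mulVec, Matrix.one_mulVec]
  funext j
  fin_cases j <;> simp

/-- the cyclic shift as an element of the group -/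
def gG : G5 := ⟨gM, gM', gM_mul, gM'_mul⟩

lemma wG_U : wG ∈ U5 := wM_mul
lemma fG_U : fG ∈ U5 := fM_mul
lemma gG_U : gG ∈ U5 := by
  show gM * gMᴴ = 1
  have h1 : gMᴴ = gM' := by
    ext i j
    show @Eq F16 (star (if j = i + 1 then 1 else 0)) (if j = i + 1 then 1 else 0)
    revert i j
    decide +kernel
  rw [h1]; exact gM_mul

lemma rep_w : RepM AW wM := by
  apply rep_direct
  · decide +kernel
  · decide +kernel

lemma rep_f : RepM AF fM := by
  apply rep_direct
  · decide +kernel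
  · decide +kernel

lemma rep_g : RepM AG gM := by
  apply rep_direct
  · decide +kernel
  · decide +kernel

lemma rep_g' : RepM AGi gM' := by
  apply rep_direct
  · decide +kernel
  · decide +kernel

lemma rep_t : RepM AT (F16.ofNat 2 • (1 : M5)) := by
  apply rep_direct
  · decide +kernel
  · intro k hk
    rw [Matrix.smul_mulVec, Matrix.one_mulVec]
    revert k
    decide +kernel

lemma iter_rep {T : ℕ} {M : M5} (hT : RepM T M) (n : ℕ) (v : V5) :
    (apm T)^[n] (pk v) = pk (M ^ n *ᵥ v) :=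
  iter_acts (f := apm T) (M := M) (apm_rep hT) n v

lemma mat_ext {M N : M5} (h : ∀ j : Fin 5, pk (M *ᵥ Pi.single j 1) = pk (N *ᵥ Pi.single j 1)) :
    M = N := by
  apply Matrix.ext_of_mulVec_single
  intro j
  exact pk_inj (h j)

lemma pk_e : ∀ j : Fin 5, pk (Pi.single j 1) = 32 ^ (4 * (j : ℕ)) := by decide +kernel

lemma w_1025 : wG ^ 1025 = 1 := by
  apply Units.ext
  rw [Units.val_pow_eq_pow_val, wG_val]
  apply mat_ext
  intro j
  have h1 : rpf (ap25 AW) 41 (32 ^ (4 * (j : ℕ))) = 32 ^ (4 * (j : ℕ)) := by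
    revert j
    decide +kernel
  rw [rp25_eq, ← pk_e, iter_rep rep_w] at h1
  rw [h1, Units.val_one, Matrix.one_mulVec]

lemma w_205 : ∃ c : F16, (wG ^ 205).1 = c • (1 : M5) := by
  refine ⟨unn (rpf (ap5 AW) 41 1), ?_⟩
  rw [Units.val_pow_eq_pow_val, wG_val]
  apply mat_ext
  intro j
  have h0 : rpf (ap5 AW) 41 (32 ^ (4 * (j : ℕ))) =
      pk (Pi.single j (unn (rpf (ap5 AW) 41 1))) := by
    revert j
    decide +kernel
  have h1 : rpf (ap5 AW) 41 (32 ^ (4 * (j : ℕ))) = pk (wM ^ 205 *ᵥ Pi.single j 1) := by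
    rw [rpf_eq, ap5_eq, ← Function.iterate_mul, ← pk_e, iter_rep rep_w]
  rw [← h1, h0, Matrix.smul_mulVec, Matrix.one_mulVec, ← Pi.single_smul, smul_eq_mul, mul_one]

lemma w_205_ne : wG ^ 205 ≠ 1 := by
  intro h
  have h1 : rpf (ap5 AW) 41 1 = pk (wM ^ 205 *ᵥ Pi.single 0 1) := by
    rw [rpf_eq, ap5_eq, ← Function.iterate_mul, ← pk_e0, iter_rep rep_w]
  have h2 : wM ^ 205 = 1 := by
    have h3 : (wG ^ 205).1 = 1 := by rw [h, Units.val_one]
    rw [Units.val_pow_eq_pow_val, wG_val] at h3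
    exact h3
  rw [h2, Matrix.one_mulVec, pk_e0] at h1
  revert h1
  decide +kernel

lemma w_25_ne : wG ^ 25 ≠ 1 := by
  intro h
  have h1 : ap25 AW 1 = pk (wM ^ 25 *ᵥ Pi.single 0 1) := by
    rw [ap25_eq, ← pk_e0, iter_rep rep_w]
  have h2 : wM ^ 25 = 1 := by
    have h3 : (wG ^ 25).1 = 1 := by rw [h, Units.val_one]
    rw [Units.val_pow_eq_pow_val, wG_val] at h3
    exact h3
  rw [h2, Matrix.one_mulVec, pk_e0] at h1
  revert h1
  decide +kernel

lemma f_5 : fG ^ 5 = 1 := by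
  apply Units.ext
  rw [Units.val_pow_eq_pow_val, fG_val]
  apply mat_ext
  intro j
  have h1 : ap5 AF (32 ^ (4 * (j : ℕ))) = 32 ^ (4 * (j : ℕ)) := by
    revert j
    decide +kernel
  rw [ap5_eq, ← pk_e, iter_rep rep_f] at h1
  rw [h1, Units.val_one, Matrix.one_mulVec]

lemma fw : fG * wG = wG ^ 16 * fG := by
  apply Units.ext
  rw [Units.val_mul, Units.val_mul, Units.val_pow_eq_pow_val, wG_val, fG_val]
  apply mat_ext
  intro j
  have h1 : apm AF (apm AW (32 ^ (4 * (j : ℕ)))) =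
      rpf (apm AW) 16 (apm AF (32 ^ (4 * (j : ℕ)))) := by
    revert j
    decide +kernel
  rw [rpf_eq, ← pk_e, apm_rep rep_w, apm_rep rep_f, apm_rep rep_f, iter_rep rep_w] at h1
  rw [← Matrix.mulVec_mulVec, ← Matrix.mulVec_mulVec]
  exact h1

lemma orderOf_w : orderOf wG = 1025 := by
  apply orderOf_eq_of_pow_and_pow_div_prime (by norm_num) w_1025
  intro p hp hd
  have h1 : p = 5 ∨ p = 41 := by
    have h2 : (1025 : ℕ) = 5 ^ 2 * 41 := by norm_num
    rw [h2] at hd
    rcases (Nat.Prime.dvd_mul hp).1 hd with h | h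
    · left; exact (Nat.prime_dvd_prime_iff_eq hp (by norm_num)).1 (hp.dvd_of_dvd_pow h)
    · right; exact (Nat.prime_dvd_prime_iff_eq hp (by norm_num)).1 h
  rcases h1 with rfl | rfl
  · norm_num; exact w_205_ne
  · norm_num; exact w_25_ne

/-- the element of order 41 -/
def xG : G5 := wG ^ 25

lemma orderOf_x : orderOf xG = 41 := by
  apply orderOf_eq_prime
  · rw [xG, ← pow_mul]; exact w_1025
  · exact w_25_ne

lemma xG_U : xG ∈ U5 := U5.pow_mem wG_U 25

end Pool.Agent.H33.Sol
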