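import Mathlib
import Pool.Agent.H33.Sol.Base

set_option autoImplicit false
set_option maxRecDepth 100000

namespace Pool.Agent.H33.Sol

open Matrix Subgroup

/-- the relation `u^5 e = ∑ p_k u^k e` as a polynomial identity -/
noncomputable def polyOf (p : V5) : Polynomial F16 :=
  Polynomial.X ^ 5 + ∑ k : Fin 5, Polynomial.C (p k) * Polynomial.X ^ (k : ℕ)

lemma polyOf_aeval (u : M5) (p e : V5) :
    (Polynomial.aeval u (polyOf p) : M5) *ᵥ e = u ^ 5 *ᵥ e + kry u e *ᵥ p := by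
  rw [kry_mulVec]
  unfold polyOf
  simp only [map_add, map_pow, Polynomial.aeval_X, map_sum, map_mul, Polynomial.aeval_C,
    Fin.sum_univ_five, Matrix.add_mulVec, Algebra.algebraMap_eq_smul_one, smul_mul_assoc, one_mul,
    Matrix.smul_mulVec]
  have h0 : ((0 : Fin 5) : ℕ) = 0 := rfl
  have h1 : ((1 : Fin 5) : ℕ) = 1 := rfl
  have h2 : ((2 : Fin 5) : ℕ) = 2 := rfl
  have h3 : ((3 : Fin 5) : ℕ) = 3 := rfl
  have h4 : ((4 : Fin 5) : ℕ) = 4 := rfl
  rw [h0, h1, h2, h3, h4, pow_zero, pow_one, Matrix.one_mulVec]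
  abel

lemma rel_iff (u : M5) (p e : V5) :
    u ^ 5 *ᵥ e = kry u e *ᵥ p ↔ (Polynomial.aeval u (polyOf p) : M5) *ᵥ e = 0 := by
  rw [polyOf_aeval]
  constructor
  · intro h; rw [h]; exact add_self_V5 _
  · intro h
    have h1 := congrArg (fun v => v + kry u e *ᵥ p) h
    simp only [add_assoc, add_self_V5, add_zero, zero_add] at h1
    exact h1

/-- If `t` has order 41 and satisfies the relation, then so does every conjugate, on every vector -/
lemma rel_conj {t h : G5} (ht : orderOf t = 41) {p e : V5} (he : e ≠ 0)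
    (hrel : t.1 ^ 5 *ᵥ e = kry t.1 e *ᵥ p) (e' : V5) :
    (h * t * h⁻¹).1 ^ 5 *ᵥ e' = kry (h * t * h⁻¹).1 e' *ᵥ p := by
  rw [rel_iff] at hrel ⊢
  -- the polynomial kills everything
  let W : Submodule F16 V5 :=
    { carrier := {v | (Polynomial.aeval t.1 (polyOf p) : M5) *ᵥ v = 0}
      add_mem' := by
        intro a b ha hb
        simp only [Set.mem_ofPred_eq] at *
        rw [Matrix.mulVec_add, ha, hb, add_zero]
      zero_mem' := by
        simp only [Set.mem_ofPred_eq]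
        rw [Matrix.mulVec_zero]
      smul_mem' := by
        intro a v hv
        simp only [Set.mem_ofPred_eq] at *
        rw [Matrix.mulVec_smul, hv, smul_zero] }
  have hW : ∀ w ∈ W, t.1 *ᵥ w ∈ W := by
    intro w hw
    have hw' : (Polynomial.aeval t.1 (polyOf p) : M5) *ᵥ w = 0 := hw
    show (Polynomial.aeval t.1 (polyOf p) : M5) *ᵥ (t.1 *ᵥ w) = 0
    have h1 : (Polynomial.aeval t.1 (polyOf p * Polynomial.X) : M5) =
      Polynomial.aeval t.1 (Polynomial.X * polyOf p) := by rw [mul_comm]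
    rw [map_mul, map_mul, Polynomial.aeval_X] at h1
    rw [Matrix.mulVec_mulVec, h1, ← Matrix.mulVec_mulVec, hw', Matrix.mulVec_zero]
  have hzero : (Polynomial.aeval t.1 (polyOf p) : M5) = 0 := by
    rcases invariant_eq ht W hW with h1 | h1
    · exfalso
      have h2 : e ∈ W := hrel
      rw [h1, Submodule.mem_bot] at h2
      exact he h2
    · apply Matrix.ext_of_mulVec_single
      intro i
      have h2 : (Pi.single i 1 : V5) ∈ W := by rw [h1]; exact Submodule.mem_top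
      rw [Matrix.zero_mulVec]
      exact h2
  have hconj : ∀ q : Polynomial F16, (Polynomial.aeval (h * t * h⁻¹).1 q : M5) =
      h.1 * (Polynomial.aeval t.1 q : M5) * h⁻¹.1 := by
    intro q
    induction q using Polynomial.induction_on' with
    | add a b ha hb => rw [map_add, map_add, ha, hb, mul_add, add_mul]
    | monomial n c =>
      rw [Polynomial.aeval_monomial, Polynomial.aeval_monomial, ← Units.val_pow_eq_pow_val,
        conj_pow, Units.val_mul, Units.val_mul, Units.val_pow_eq_pow_val,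
        Algebra.algebraMap_eq_smul_one, smul_mul_assoc, smul_mul_assoc, one_mul, one_mul,
        mul_smul_comm, smul_mul_assoc]
  rw [hconj, hzero, mul_zero, zero_mul, Matrix.zero_mulVec]

/-- the minimal polynomial of `x` -/
def PX : ℕ := 0x842000001000010800100001

lemma rep_w2 : RepM AW2 (wM ^ 2) := by
  rw [pow_two]
  exact rep_comp rep_w rep_w (by decide +kernel)
lemma rep_w4 : RepM AW4 (wM ^ 4) := by
  have h : wM ^ 4 = wM ^ 2 * wM ^ 2 := by rw [← pow_add]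
  rw [h]
  exact rep_comp rep_w2 rep_w2 (by decide +kernel)
lemma rep_w8 : RepM AW8 (wM ^ 8) := by
  have h : wM ^ 8 = wM ^ 4 * wM ^ 4 := by rw [← pow_add]
  rw [h]
  exact rep_comp rep_w4 rep_w4 (by decide +kernel)
lemma rep_w16 : RepM AW16 (wM ^ 16) := by
  have h : wM ^ 16 = wM ^ 8 * wM ^ 8 := by rw [← pow_add]
  rw [h]
  exact rep_comp rep_w8 rep_w8 (by decide +kernel)
lemma rep_w32 : RepM AW32 (wM ^ 32) := by
  have h : wM ^ 32 = wM ^ 16 * wM ^ 16 := by rw [← pow_add]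
  rw [h]
  exact rep_comp rep_w16 rep_w16 (by decide +kernel)
lemma rep_w40 : RepM AW40 (wM ^ 40) := by
  have h : wM ^ 40 = wM ^ 32 * wM ^ 8 := by rw [← pow_add]
  rw [h]
  exact rep_comp rep_w32 rep_w8 (by decide +kernel)
lemma rep_w24 : RepM AW24 (wM ^ 24) := by
  have h : wM ^ 24 = wM ^ 16 * wM ^ 8 := by rw [← pow_add]
  rw [h]
  exact rep_comp rep_w16 rep_w8 (by decide +kernel)
lemma rep_w25 : RepM AW25 (wM ^ 25) := by
  have h : wM ^ 25 = wM ^ 24 * wM := by rw [← pow_succ]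
  rw [h]
  exact rep_comp rep_w24 rep_w (by decide +kernel)
lemma rep_w41 : RepM (subt ZBl 0) (wM ^ 41) := by
  have h : wM ^ 41 = wM ^ 40 * wM := by rw [← pow_succ]
  rw [h]
  exact rep_comp rep_w40 rep_w (by decide +kernel)

lemma xG_val : xG.1 = wM ^ 25 := by
  rw [xG, Units.val_pow_eq_pow_val, wG_val]

lemma xk_acts (k : ℕ) (v : V5) : rpf (apm AW25) k (pk v) = pk ((xG ^ k).1 *ᵥ v) := by
  rw [rpf_eq, iter_rep rep_w25, Units.val_pow_eq_pow_val, xG_val]

lemma PX_enc : EncP PX (decV PX) := encOK_sound (by decide +kernel)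

lemma PX_h : horner (rpf (apm AW25) 1) PX = true := by decide +kernel

lemma x_rel : xG.1 ^ 5 *ᵥ Pi.single 0 1 = kry xG.1 (Pi.single 0 1) *ᵥ decV PX := by
  have h := (horner_iff (f := rpf (apm AW25) 1) (u := (xG ^ 1).1) (xk_acts 1) PX_enc).1 PX_h
  rw [pow_one] at h
  exact h

lemma x_horner : ∀ k < 41, horner (rpf (apm AW25) k) PX = true →
    k = 1 ∨ k = 16 ∨ k = 10 ∨ k = 37 ∨ k = 18 := by
  decide +kernel

lemma fwf : fG * wG * fG⁻¹ = wG ^ 16 := by
  rw [fw]; group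

lemma f_conj (j : ℕ) (u : ℕ) : fG ^ j * wG ^ u * (fG ^ j)⁻¹ = wG ^ (16 ^ j * u) := by
  induction j with
  | zero => simp
  | succ j ih =>
    have h1 : fG ^ (j + 1) * wG ^ u * (fG ^ (j + 1))⁻¹ =
        fG * (fG ^ j * wG ^ u * (fG ^ j)⁻¹) * fG⁻¹ := by
      rw [pow_succ']; group
    rw [h1, ih]
    have h2 : fG * wG ^ (16 ^ j * u) * fG⁻¹ = (fG * wG * fG⁻¹) ^ (16 ^ j * u) := by
      rw [conj_pow]
    rw [h2, fwf, ← pow_mul, pow_succ]
    congr 1
    ring

/-- the normaliser of `⟨x⟩` in the unitary group -/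
theorem norm_unitary {h : G5} (hU : h ∈ U5) (hh : h * xG * h⁻¹ ∈ zpowers xG) :
    ∃ a j : ℕ, h = wG ^ a * fG ^ j := by
  -- natural exponent
  obtain ⟨k, hk, hk41⟩ : ∃ k : ℕ, xG ^ k = h * xG * h⁻¹ ∧ k < 41 := by
    obtain ⟨z, hz⟩ := hh
    have hz' : xG ^ z = h * xG * h⁻¹ := hz
    have h1 : (0 : ℤ) ≤ z % 41 := Int.emod_nonneg _ (by norm_num)
    have h2 : z % 41 < 41 := Int.emod_lt_of_pos _ (by norm_num)
    obtain ⟨k, hk⟩ := Int.eq_ofNat_of_zero_le h1
    refine ⟨k, ?_, by omega⟩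
    rw [← hz', ← zpow_natCast]
    have h3 : z = (k : ℤ) + 41 * (z / 41) := by
      rw [← hk]
      exact (Int.emod_add_mul_ediv z 41).symm
    have h4 : xG ^ (41 : ℤ) = 1 := by
      have : xG ^ (41 : ℕ) = 1 := by rw [← orderOf_x]; exact pow_orderOf_eq_one xG
      exact_mod_cast this
    conv_rhs => rw [h3, _root_.zpow_add, _root_.zpow_mul, h4, _root_.one_zpow, mul_one]
  -- the exponent is a power of 16
  have h1 := rel_conj (h := h) orderOf_x e0_ne x_rel (Pi.single 0 1)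
  rw [← hk] at h1
  have h2 := (horner_iff (f := rpf (apm AW25) k) (u := (xG ^ k).1) (xk_acts k) PX_enc).2 h1
  have h3 := x_horner k hk41 h2
  have h4 : ∃ j : ℕ, fG ^ j * xG * (fG ^ j)⁻¹ = xG ^ k := by
    have hx25 : ∀ j m k' : ℕ, 16 ^ j * 25 = 25 * k' + 1025 * m →
        fG ^ j * xG * (fG ^ j)⁻¹ = xG ^ k' := by
      intro j m k' hjm
      rw [xG, f_conj, hjm, pow_add, pow_mul, pow_mul, w_1025, one_pow, mul_one]
    rcases h3 with rfl | rfl | rfl | rfl | rfl
    · exact ⟨0, hx25 0 0 1 (by norm_num)⟩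
    · exact ⟨1, hx25 1 0 16 (by norm_num)⟩
    · exact ⟨2, hx25 2 6 10 (by norm_num)⟩
    · exact ⟨3, hx25 3 99 37 (by norm_num)⟩
    · exact ⟨4, hx25 4 1598 18 (by norm_num)⟩
  obtain ⟨j, hj⟩ := h4
  -- now a centralising element
  have h5 : Commute ((fG ^ j)⁻¹ * h) xG := by
    have h6 : ((fG ^ j)⁻¹ * h) * xG * ((fG ^ j)⁻¹ * h)⁻¹ = xG := by
      have h7 : ((fG ^ j)⁻¹ * h) * xG * ((fG ^ j)⁻¹ * h)⁻¹ =
          (fG ^ j)⁻¹ * (h * xG * h⁻¹) * fG ^ j := by group
      rw [h7, ← hk, ← hj]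
      group
    exact mul_inv_eq_iff_eq_mul.1 h6
  have h6 : (fG ^ j)⁻¹ * h ∈ U5 := U5.mul_mem (U5.inv_mem (U5.pow_mem fG_U j)) hU
  have h7 : Commute wG xG := (Commute.refl wG).pow_right 25
  have h8 := cent_unitary orderOf_x xG_U orderOf_w h7 h6 h5
  obtain ⟨z, hz⟩ := h8
  have hz' : wG ^ z = (fG ^ j)⁻¹ * h := hz
  obtain ⟨a, ha⟩ : ∃ a : ℕ, wG ^ a = (fG ^ j)⁻¹ * h := by
    have h1 : (0 : ℤ) ≤ z % 1025 := Int.emod_nonneg _ (by norm_num)
    obtain ⟨k, hk⟩ := Int.eq_ofNat_of_zero_le h1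
    refine ⟨k, ?_⟩
    rw [← hz', ← zpow_natCast]
    have h3 : z = (k : ℤ) + 1025 * (z / 1025) := by
      rw [← hk]
      exact (Int.emod_add_mul_ediv z 1025).symm
    have h4 : wG ^ (1025 : ℤ) = 1 := by
      have : wG ^ (1025 : ℕ) = 1 := w_1025
      exact_mod_cast this
    conv_rhs => rw [h3, _root_.zpow_add, _root_.zpow_mul, h4, _root_.one_zpow, mul_one]
  refine ⟨16 ^ j * a, j, ?_⟩
  rw [← f_conj, ha]
  group

end Pool.Agent.H33.Sol
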