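import Mathlib
import Pool.Agent.H33.Sol.Norm
import Pool.Agent.H33.Sol.Rows1
import Pool.Agent.H33.Sol.Rows2
import Pool.Agent.H33.Sol.Rows3

set_option autoImplicit false
set_option maxRecDepth 100000

namespace Pool.Agent.H33.Sol

open Matrix Subgroup

lemma polys_ok : polysOK AT PT CA 0 = true := by decide +kernel

lemma CA_length : CA.length = 200 := by decide +kernel

lemma goodPT : ∀ k < 200, GoodPoly (lookP PT k) := by
  intro k hk
  have h := polysOK_sound rep_t polys_ok k (by rw [CA_length]; exact hk)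
  rw [zero_add] at h
  exact h

/-- the powers of a block are right -/
noncomputable def blkOK (A : ℕ) : Bool :=
  and (compOK (subt A 0) (subt A 0) (subt A 1))
  (and (compOK (subt A 0) (subt A 1) (subt A 2)) (compOK (subt A 0) (subt A 2) (subt A 3)))

lemma blkOK_sound {A : ℕ} {Z : G5} (h : blkOK A = true) (hZ : RepM (subt A 0) Z.1) : Blk A Z := by
  unfold blkOK at h
  rw [Bool.and_eq_true, Bool.and_eq_true] at h
  obtain ⟨h1, h2, h3⟩ := h
  have r2 : RepM (subt A 1) (Z.1 * Z.1) := rep_comp hZ hZ h1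
  have r3 : RepM (subt A 2) (Z.1 * (Z.1 * Z.1)) := rep_comp hZ r2 h2
  have r4 : RepM (subt A 3) (Z.1 * (Z.1 * (Z.1 * Z.1))) := rep_comp hZ r3 h3
  intro i hi
  interval_cases i
  · have : (Z ^ (0 + 1)).1 = Z.1 := by rw [zero_add, pow_one]
    rw [this]; exact hZ
  · have : (Z ^ (1 + 1)).1 = Z.1 * Z.1 := by rw [pow_two, Units.val_mul]
    rw [this]; exact r2
  · have : (Z ^ (2 + 1)).1 = Z.1 * (Z.1 * Z.1) := by
      rw [pow_succ', pow_two, Units.val_mul, Units.val_mul]
    rw [this]; exact r3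
  · have : (Z ^ (3 + 1)).1 = Z.1 * (Z.1 * (Z.1 * Z.1)) := by
      rw [pow_succ', pow_succ', pow_two, Units.val_mul, Units.val_mul, Units.val_mul]
    rw [this]; exact r4

/-- `Y` is the block of the conjugate -/
noncomputable def cblkOK (B Y : ℕ) : Bool := and (comp3OK AG (subt B 0) AGi (subt Y 0)) (blkOK Y)

lemma cblkOK_sound {B Y : ℕ} {Z : G5} (h : cblkOK B Y = true) (hZ : RepM (subt B 0) Z.1) :
    Blk Y (gG * Z * gG⁻¹) := by
  unfold cblkOK at h
  rw [Bool.and_eq_true] at h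
  obtain ⟨h1, h2⟩ := h
  apply blkOK_sound h2
  have h3 : (gG * Z * gG⁻¹).1 = gM * (Z.1 * gM') := by
    rw [mul_assoc]
    rfl
  rw [h3]
  exact rep_comp3 rep_g hZ rep_g' h1

/-- chain of blocks, each starting with `ω` times the previous one -/
noncomputable def chainOK (Zs : List ℕ) : ℕ → List ℕ → Bool :=
  @List.rec ℕ (fun _ => ℕ → List ℕ → Bool) (fun _ _ => true)
    (fun B _ ih prev Ys => @List.rec ℕ (fun _ => Bool) false
      (fun Y Ys' _ => and (compOK AW (subt prev 0) (subt B 0)) (and (blkOK B)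
        (and (cblkOK B Y) (ih B Ys')))) Ys) Zs

lemma chain_sound : ∀ {l : List ℕ} {A : ℕ} {Ys : List ℕ} {M : G5}, chainOK l A Ys = true →
    RepM (subt A 0) M.1 → ∀ n < l.length, (∃ B ∈ l, Blk B (wG ^ (n + 1) * M)) ∧
      ∃ Y ∈ Ys, Blk Y (gG * (wG ^ (n + 1) * M) * gG⁻¹) := by
  intro l
  induction l with
  | nil => intro A Ys M _ _ n hn; simp at hn
  | cons B l ih =>
    intro A Ys M h hM n hn
    cases Ys with
    | nil =>
      have h' : false = true := h
      exact absurd h' (by simp)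
    | cons Y Ys =>
      have h' : and (compOK AW (subt A 0) (subt B 0)) (and (blkOK B)
        (and (cblkOK B Y) (chainOK l B Ys))) = true := h
      rw [Bool.and_eq_true, Bool.and_eq_true, Bool.and_eq_true] at h'
      obtain ⟨h1, h2, h3, h4⟩ := h'
      have hB : RepM (subt B 0) (wG * M).1 := by
        rw [Units.val_mul]
        exact rep_comp rep_w hM h1
      rcases n with _ | n
      · rw [zero_add, pow_one]
        exact ⟨⟨B, List.mem_cons_self, blkOK_sound h2 hB⟩,
          ⟨Y, List.mem_cons_self, cblkOK_sound h3 hB⟩⟩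
      · obtain ⟨⟨B', hB', hblk⟩, ⟨Y', hY', hblk'⟩⟩ := ih h4 hB n (by simpa using hn)
        have e : wG ^ (n + 1 + 1) * M = wG ^ (n + 1) * (wG * M) := by
          rw [pow_succ, mul_assoc]
        rw [e]
        exact ⟨⟨B', List.mem_cons_of_mem _ hB', hblk⟩, ⟨Y', List.mem_cons_of_mem _ hY', hblk'⟩⟩

lemma chain_ok : chainOK ZBm ZB0 YBm = true := by decide +kernel

lemma ZBm_length : ZBm.length = 204 := by decide +kernel

lemma rep_B0 : RepM (subt ZB0 0) fM := by
  apply rep_direct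
  · decide +kernel
  · decide +kernel

lemma blk_B0 : blkOK ZB0 = true := by decide +kernel
lemma blk_Bl : blkOK ZBl = true := by decide +kernel
lemma cblk_B0 : cblkOK ZB0 YB0 = true := by decide +kernel
lemma cblk_Bl : cblkOK ZBl YBl = true := by decide +kernel

/-- the special elements -/
def SpecG : Set G5 := {d | (∃ c < 205, d = wG ^ c * fG) ∨ d = wG ^ 41}

lemma spec_blk {d : G5} (hd : d ∈ SpecG) :
    (∃ A ∈ TZ, Blk A d) ∧ ∃ Y ∈ TY, Blk Y (gG * d * gG⁻¹) := by
  rcases hd with ⟨c, hc, rfl⟩ | rfl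
  · rcases c with _ | c
    · rw [pow_zero, one_mul]
      exact ⟨⟨ZB0, List.mem_cons_self, blkOK_sound blk_B0 rep_B0⟩,
        ⟨YB0, List.mem_cons_self, cblkOK_sound cblk_B0 rep_B0⟩⟩
    · obtain ⟨⟨B, hB, h⟩, ⟨Y, hY, h'⟩⟩ := chain_sound (M := fG) chain_ok rep_B0 c
        (by rw [ZBm_length]; omega)
      exact ⟨⟨B, List.mem_cons_of_mem _ (List.mem_cons_of_mem _ hB), h⟩,
        ⟨Y, List.mem_cons_of_mem _ (List.mem_cons_of_mem _ hY), h'⟩⟩
  · have h41 : RepM (subt ZBl 0) (wG ^ 41).1 := by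
      rw [Units.val_pow_eq_pow_val, wG_val]
      exact rep_w41
    exact ⟨⟨ZBl, List.mem_cons_of_mem _ List.mem_cons_self, blkOK_sound blk_Bl h41⟩,
      ⟨YBl, List.mem_cons_of_mem _ List.mem_cons_self, cblkOK_sound cblk_Bl h41⟩⟩

lemma all_rows : ∀ A ∈ TZ, ∀ B ∈ TY, ∃ c, pairOK PT A B c = true := by
  intro A hA
  have h0 : A ∈ [ZB0, ZBl] ∨ A ∈ ZBm := by
    rcases List.mem_cons.1 hA with h | h
    · left; rw [h]; exact List.mem_cons_self
    · rcases List.mem_cons.1 h with h | h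
      · left; rw [h]; exact List.mem_cons_of_mem _ List.mem_cons_self
      · right; exact h
  rcases h0 with h | h
  · exact rowsOK_sound rows_0 A h
  · unfold ZBm at h
    simp only [List.mem_append] at h
    rcases h with h | h | h | h | h | h
    · exact rowsOK_sound rows_1 A h
    · exact rowsOK_sound rows_2 A h
    · exact rowsOK_sound rows_3 A h
    · exact rowsOK_sound rows_4 A h
    · exact rowsOK_sound rows_5 A h
    · exact rowsOK_sound rows_6 A h

theorem spec_not_solvable {d d' : G5} (hd : d ∈ SpecG) (hd' : d' ∈ SpecG) {K : Subgroup G5}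
    (hK : d ∈ K) (hK' : gG * d' * gG⁻¹ ∈ K) : ¬ Group.IsSolvable K := by
  obtain ⟨⟨A, hA, hAd⟩, _⟩ := spec_blk hd
  obtain ⟨_, ⟨B, hB, hBd⟩⟩ := spec_blk hd'
  obtain ⟨c, hc⟩ := all_rows A hA B hB
  exact pair_not_solvable hAd hBd goodPT hc hK hK'

end Pool.Agent.H33.Sol
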