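import Mathlib
import Pool.Agent.H33.Sol.Pairs
import Pool.Agent.H33.Sol.Abstract

set_option autoImplicit false
set_option maxRecDepth 100000

namespace Pool.Agent.H33.Sol

open Matrix Subgroup

/-- `ω` in the unitary group -/
def wU : U5 := ⟨wG, wG_U⟩
/-- `φ` in the unitary group -/
def fU : U5 := ⟨fG, fG_U⟩
/-- the cyclic shift in the unitary group -/
def gU : U5 := ⟨gG, gG_U⟩

/-- the scalar subgroup -/
def ZU : Subgroup U5 := zpowers (wU ^ 205)

lemma zeta_central (u : U5) : u * wU ^ 205 = wU ^ 205 * u := by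
  obtain ⟨c, hc⟩ := w_205
  apply Subtype.ext
  apply Units.ext
  show (u.1 * wG ^ 205).1 = (wG ^ 205 * u.1).1
  rw [Units.val_mul, Units.val_mul, hc, mul_smul_comm, smul_mul_assoc, mul_one, one_mul]

lemma ZU_central {z : U5} (hz : z ∈ ZU) (u : U5) : u * z = z * u := by
  obtain ⟨k, rfl⟩ := hz
  have h : Commute u (wU ^ 205) := zeta_central u
  exact h.zpow_right k

instance : ZU.Normal := ⟨by
  intro n hn g
  have h : g * n * g⁻¹ = n := by rw [ZU_central hn g]; group
  rw [h]; exact hn⟩

/-- the projective unitary group -/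
abbrev PU : Type := U5 ⧸ ZU

/-- the quotient map -/
def pr : U5 →* PU := QuotientGroup.mk' ZU

lemma pr_surj : Function.Surjective pr := QuotientGroup.mk'_surjective ZU

lemma pr_eq_one {z : U5} : pr z = 1 ↔ z ∈ ZU := QuotientGroup.eq_one_iff z

/-- lifting solvability from the quotient -/
lemma solv_lift {a b : U5} (h : Group.IsSolvable (closure {pr a, pr b} : Subgroup PU)) :
    Group.IsSolvable (closure {a.1, b.1} : Subgroup G5) := by
  set H : Subgroup U5 := closure {a, b} with hH
  have hmap : H.map pr = closure {pr a, pr b} := by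
    rw [hH, MonoidHom.map_closure, Set.image_pair]
  have h1 : Group.IsSolvable (H.map pr) := by rw [hmap]; exact h
  have h2 : Group.IsSolvable ((H.subgroupOf H) ⊓ (ZU.subgroupOf H) : Subgroup H) := by
    apply Group.isSolvable_of_comm
    intro x y
    apply Subtype.ext
    apply Subtype.ext
    have hy := (Subgroup.mem_inf.1 y.2).2
    rw [Subgroup.mem_subgroupOf] at hy
    exact ZU_central hy _
  have h3 : Group.IsSolvable H := by
    apply Group.isSolvable_of_ker_le_range
      ((H.subgroupOf H) ⊓ (ZU.subgroupOf H) : Subgroup H).subtype (pr.subgroupMap H)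
    intro x hx
    rw [MonoidHom.mem_ker] at hx
    have hx' : pr x.1 = 1 := congrArg Subtype.val hx
    rw [pr_eq_one] at hx'
    refine ⟨⟨x, Subgroup.mem_inf.2 ⟨?_, ?_⟩⟩, rfl⟩
    · rw [Subgroup.mem_subgroupOf]; exact x.2
    · rw [Subgroup.mem_subgroupOf]; exact hx'
  have h4 : (closure {a.1, b.1} : Subgroup G5) = H.map U5.subtype := by
    rw [hH, MonoidHom.map_closure, Set.image_pair]
    rfl
  rw [h4]
  exact Group.isSolvable_of_surjective (f := U5.subtype.subgroupMap H)
    (U5.subtype.subgroupMap_surjective H)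

/-- the data for the abstract theorem -/
theorem data_PU : Data (pr wU) (pr fU) (pr gU) where
  W205 := by
    rw [← map_pow, pr_eq_one]
    exact mem_zpowers _
  F5 := by
    rw [← map_pow]
    have h : fU ^ 5 = 1 := Subtype.ext f_5
    rw [h, map_one]
  FW := by
    have h : fU * wU * fU⁻¹ = wU ^ 16 := Subtype.ext fwf
    rw [← map_mul, ← map_inv, ← map_mul, h, map_pow]
  norm := by
    intro z hz
    obtain ⟨z, rfl⟩ := pr_surj z
    rw [← map_pow] at hz
    have h1 := solv_lift hz
    have h2 := sol41 orderOf_x _ h1 (subset_closure (by left; rfl)) z.1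
      (subset_closure (by right; rfl))
    obtain ⟨a, j, haj⟩ := norm_unitary z.2 h2
    refine ⟨a, j, ?_⟩
    have h3 : z = wU ^ a * fU ^ j := Subtype.ext haj
    rw [h3, map_mul, map_pow, map_pow]
  nsol := by
    intro d hd d' hd' hsol
    have key : ∀ d ∈ Spec (pr wU) (pr fU), ∃ e : U5, pr e = d ∧ e.1 ∈ SpecG := by
      intro d hd
      rcases hd with ⟨c, hc, rfl⟩ | rfl
      · exact ⟨wU ^ c * fU, by rw [map_mul, map_pow], Or.inl ⟨c, hc, rfl⟩⟩
      · exact ⟨wU ^ 41, by rw [map_pow], Or.inr rfl⟩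
    obtain ⟨e, rfl, he⟩ := key d hd
    obtain ⟨e', rfl, he'⟩ := key d' hd'
    rw [← map_mul, ← map_inv, ← map_mul] at hsol
    have h1 := solv_lift hsol
    exact spec_not_solvable he he' (subset_closure (by left; rfl))
      (subset_closure (by right; rfl)) h1

instance : Finite PU := inferInstance

/-- the determinant -/
def detU : U5 →* F16ˣ := (GeneralLinearGroup.det).comp U5.subtype

lemma detU_val (u : U5) : (detU u).1 = Matrix.det u.1.1 := rfl

lemma detU_zeta : detU (wU ^ 205) = 1 := by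
  obtain ⟨c, hc⟩ := w_205
  apply Units.ext
  have h0 : (wU ^ 205).1 = wG ^ 205 := by rw [SubmonoidClass.coe_pow]; rfl
  rw [detU_val, h0, Units.val_one]
  have h1 : (wG ^ 1025).1 = 1 := by rw [w_1025, Units.val_one]
  have h2 : (wG ^ 1025).1 = c ^ 5 • (1 : M5) := by
    have : wG ^ 1025 = (wG ^ 205) ^ 5 := by rw [← pow_mul]
    rw [this, Units.val_pow_eq_pow_val, hc, smul_pow, one_pow]
  rw [hc, Matrix.det_smul, Matrix.det_one, mul_one, Fintype.card_fin]
  rw [h2] at h1
  have h3 := congrFun (congrFun h1 0) 0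
  simpa using h3

lemma ZU_le_ker : ZU ≤ detU.ker := by
  unfold ZU
  rw [Subgroup.zpowers_le, MonoidHom.mem_ker]
  exact detU_zeta

/-- the determinant on the quotient -/
def detP : PU →* F16ˣ := QuotientGroup.lift ZU detU (fun _ hz => ZU_le_ker hz)

lemma detP_pr (z : U5) : detP (pr z) = detU z := rfl

/-- a unitary matrix with nontrivial determinant -/
def dM : M5 := Matrix.diagonal ![F16.ofNat 8, 1, 1, 1, 1]

lemma dM_mul : dM * dMᴴ = 1 := by
  ext i j
  show (∑ k, dM i k * star (dM j k) : F16) = if i = j then 1 else 0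
  revert i j
  decide +kernel

lemma dM_mul' : dMᴴ * dM = 1 := by
  ext i j
  show (∑ k, star (dM k i) * dM k j : F16) = if i = j then 1 else 0
  revert i j
  decide +kernel

/-- the element -/
def dU : U5 := ⟨⟨dM, dMᴴ, dM_mul, dM_mul'⟩, dM_mul⟩

lemma detU_d : detU dU ≠ 1 := by
  intro h
  have h1 : Matrix.det dM = 1 := congrArg Units.val h
  rw [dM, Matrix.det_diagonal] at h1
  revert h1
  decide +kernel

lemma x_ne_one : pr wU ^ 25 ≠ 1 := by
  intro h
  rw [← map_pow, pr_eq_one] at h
  obtain ⟨k, hk⟩ := h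
  have hk' : (wG ^ 205) ^ k = wG ^ 25 := congrArg Subtype.val hk
  have h1 : (wG ^ 25) ^ 5 = 1 := by
    rw [← hk', ← zpow_natCast, ← _root_.zpow_mul, mul_comm, _root_.zpow_mul]
    have : (wG ^ 205) ^ ((5 : ℕ) : ℤ) = 1 := by
      rw [zpow_natCast, ← pow_mul]; exact w_1025
    rw [this, _root_.one_zpow]
  have h2 := orderOf_dvd_of_pow_eq_one h1
  have h3 : orderOf (wG ^ 25) = 41 := orderOf_x
  rw [h3] at h2
  revert h2
  decide

theorem not_simple : ¬ IsSimpleGroup PU := by
  intro hs
  have hn : detP.ker.Normal := inferInstance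
  rcases hs.eq_bot_or_eq_top_of_normal _ hn with h | h
  · -- x lies in the kernel
    apply x_ne_one
    have h1 : pr wU ^ 25 ∈ detP.ker := by
      rw [MonoidHom.mem_ker]
      have h2 : (detP (pr wU ^ 25)) ^ 41 = 1 := by
        have h3 : (pr wU ^ 25) ^ 41 = 1 := by
          rw [← pow_mul]
          have h4 : pr wU ^ (25 * 41) = (pr wU ^ 205) ^ 5 := by rw [← pow_mul]
          rw [h4, data_PU.W205, one_pow]
        rw [← map_pow, h3, map_one]
      have h3 : (detP (pr wU ^ 25)) ^ 15 = 1 := by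
        have h4 : Fintype.card F16ˣ = 15 := by rw [Fintype.card_units, F16.card]
        rw [← h4]
        exact pow_card_eq_one
      have h5 := orderOf_dvd_of_pow_eq_one h2
      have h6 := orderOf_dvd_of_pow_eq_one h3
      have h7 : orderOf (detP (pr wU ^ 25)) ∣ Nat.gcd 41 15 := Nat.dvd_gcd h5 h6
      have h8 : Nat.gcd 41 15 = 1 := by norm_num
      rw [h8, Nat.dvd_one, orderOf_eq_one_iff] at h7
      exact h7
    rw [h, Subgroup.mem_bot] at h1
    exact h1
  · apply detU_d
    have h1 : pr dU ∈ detP.ker := by rw [h]; exact Subgroup.mem_top _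
    rw [MonoidHom.mem_ker, detP_pr] at h1
    exact h1

end Pool.Agent.H33.Sol
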